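import Mathlib

/-!
# Definitions for the full strong law for random sets in a Banach space

The definitions follow the problem file: B-convexity, nonempty bounded convex sets `BC X`, the space
`Z` of bounded continuous functions on the unit sphere of the dual, the embedding `R`, dimension,
and the full form of the strong law of large numbers for a class of random sets.
-/

open MeasureTheory ProbabilityTheory Filter Topology
open scoped Pointwise

namespace Pool.Agent.Lib.Pd665d0

universe u v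

/-- B-convexity: for some `k ≥ 2` and `ε > 0`, any `k` vectors of the closed unit ball admit signs
with `‖± x_1 ± ... ± x_k‖ ≤ k (1 - ε)`. -/
def IsBConvex (X : Type u) [NormedAddCommGroup X] [NormedSpace ℝ X] : Prop :=
  ∃ k : ℕ, 2 ≤ k ∧ ∃ ε : ℝ, 0 < ε ∧ ∀ x : Fin k → X, (∀ i, ‖x i‖ ≤ 1) →
    ∃ s : Fin k → ℝ, (∀ i, s i = 1 ∨ s i = -1) ∧ ‖∑ i, s i • x i‖ ≤ k * (1 - ε)

section support

variable {X : Type u} [NormedAddCommGroup X] [NormedSpace ℝ X]

/-- The support function of a set of `X`. -/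
noncomputable def supp (A : Set X) (f : StrongDual ℝ X) : ℝ := sSup ((fun a => f a) '' A)

lemma bddAbove_image {A : Set X} (hb : Bornology.IsBounded A) (f : StrongDual ℝ X) :
    BddAbove ((fun a => f a) '' A) := by
  obtain ⟨C, hC⟩ := hb.exists_norm_le
  refine ⟨‖f‖ * C, ?_⟩
  rintro _ ⟨a, ha, rfl⟩
  calc f a ≤ ‖f a‖ := le_abs_self _
    _ ≤ ‖f‖ * ‖a‖ := f.le_opNorm a
    _ ≤ ‖f‖ * C := mul_le_mul_of_nonneg_left (hC a ha) (norm_nonneg _)

lemma le_supp {A : Set X} (hb : Bornology.IsBounded A) (f : StrongDual ℝ X) {a : X} (ha : a ∈ A) :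
    f a ≤ supp A f := le_csSup (bddAbove_image hb f) ⟨a, ha, rfl⟩

lemma supp_le {A : Set X} (hne : A.Nonempty) (f : StrongDual ℝ X) {c : ℝ}
    (h : ∀ a ∈ A, f a ≤ c) : supp A f ≤ c := by
  refine csSup_le (hne.image _) ?_
  rintro _ ⟨a, ha, rfl⟩
  exact h a ha

lemma supp_sub_le {A : Set X} (hne : A.Nonempty) (hb : Bornology.IsBounded A) {C : ℝ}
    (hC : ∀ a ∈ A, ‖a‖ ≤ C) (f g : StrongDual ℝ X) : supp A f - supp A g ≤ C * ‖f - g‖ := by
  rw [sub_le_iff_le_add]
  refine supp_le hne f fun a ha => ?_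
  have h1 := le_supp hb g ha
  have h2 : f a - g a ≤ ‖f - g‖ * ‖a‖ := by
    calc f a - g a = (f - g) a := rfl
      _ ≤ ‖(f - g) a‖ := le_abs_self _
      _ ≤ ‖f - g‖ * ‖a‖ := (f - g).le_opNorm a
  have h3 : ‖f - g‖ * ‖a‖ ≤ ‖f - g‖ * C := mul_le_mul_of_nonneg_left (hC a ha) (norm_nonneg _)
  linarith

lemma abs_supp_sub_le {A : Set X} (hne : A.Nonempty) (hb : Bornology.IsBounded A) {C : ℝ}
    (hC : ∀ a ∈ A, ‖a‖ ≤ C) (f g : StrongDual ℝ X) : |supp A f - supp A g| ≤ C * ‖f - g‖ := by
  rw [abs_le]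
  have h1 := supp_sub_le hne hb hC f g
  have h2 := supp_sub_le hne hb hC g f
  rw [norm_sub_rev] at h2
  constructor <;> linarith

lemma supp_zero {A : Set X} (hne : A.Nonempty) : supp A 0 = 0 := by
  unfold supp
  have : ((fun a => (0 : StrongDual ℝ X) a) '' A) = {0} := by
    ext y
    simp only [zero_apply, Set.mem_image, Set.mem_singleton_iff]
    constructor
    · rintro ⟨a, _, rfl⟩; rfl
    · rintro rfl; obtain ⟨a, ha⟩ := hne; exact ⟨a, ha, rfl⟩
  rw [this, csSup_singleton]

lemma abs_supp_le {A : Set X} (hne : A.Nonempty) (hb : Bornology.IsBounded A) {C : ℝ}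
    (hC : ∀ a ∈ A, ‖a‖ ≤ C) (f : StrongDual ℝ X) : |supp A f| ≤ C * ‖f‖ := by
  have := abs_supp_sub_le hne hb hC f 0
  rwa [supp_zero hne, sub_zero, sub_zero] at this

end support

section BCdef

variable {X : Type u} [NormedAddCommGroup X] [NormedSpace ℝ X]

/-- Nonempty bounded convex subsets of `X`.  Sets at Hausdorff distance `0` are not distinguished by
`R` nor by the Hausdorff distance, so working with representatives is the same as working with
classes. -/
structure BC (X : Type u) [NormedAddCommGroup X] [NormedSpace ℝ X] where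
  /-- the underlying set -/
  carrier : Set X
  nonempty' : carrier.Nonempty
  bounded' : Bornology.IsBounded carrier
  convex' : Convex ℝ carrier

/-- The space `Z` of bounded continuous real functions on the unit sphere of the dual. -/
abbrev ZSpace (X : Type u) [NormedAddCommGroup X] [NormedSpace ℝ X] : Type u :=
  BoundedContinuousFunction (Metric.sphere (0 : StrongDual ℝ X) 1) ℝ

/-- The embedding `R` of `BC X` into `Z`: the support function restricted to the unit sphere. -/
noncomputable def BC.R (A : BC X) : ZSpace X where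
  toFun f := supp A.carrier f.1
  continuous_toFun := by
    obtain ⟨C, hC⟩ := A.bounded'.exists_norm_le
    have hC0 : 0 ≤ C := by
      obtain ⟨a, ha⟩ := A.nonempty'
      exact (norm_nonneg a).trans (hC a ha)
    refine (LipschitzWith.of_dist_le_mul (K := ⟨C, hC0⟩) fun f g => ?_).continuous
    rw [Real.dist_eq, Subtype.dist_eq, dist_eq_norm]
    exact abs_supp_sub_le A.nonempty' A.bounded' hC f.1 g.1
  map_bounded' := by
    obtain ⟨C, hC⟩ := A.bounded'.exists_norm_le
    refine ⟨C * 1 + C * 1, fun f g => ?_⟩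
    rw [Real.dist_eq]
    have hf : ‖f.1‖ = 1 := mem_sphere_zero_iff_norm.1 f.2
    have hg : ‖g.1‖ = 1 := mem_sphere_zero_iff_norm.1 g.2
    have h1 := abs_supp_le A.nonempty' A.bounded' hC f.1
    have h2 := abs_supp_le A.nonempty' A.bounded' hC g.1
    rw [hf] at h1
    rw [hg] at h2
    exact (abs_sub _ _).trans (add_le_add h1 h2)

lemma BC.R_apply (A : BC X) (f : Metric.sphere (0 : StrongDual ℝ X) 1) :
    A.R f = supp A.carrier f.1 := rfl

lemma BC.norm_R_le (A : BC X) {C : ℝ} (hC : ∀ a ∈ A.carrier, ‖a‖ ≤ C) : ‖A.R‖ ≤ C := by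
  have hC0 : 0 ≤ C := by
    obtain ⟨a, ha⟩ := A.nonempty'
    exact (norm_nonneg a).trans (hC a ha)
  rw [BoundedContinuousFunction.norm_le hC0]
  intro f
  have hf : ‖f.1‖ = 1 := mem_sphere_zero_iff_norm.1 f.2
  have h1 := abs_supp_le A.nonempty' A.bounded' hC f.1
  rw [hf, mul_one] at h1
  exact h1

/-- The dimension of a convex set: the dimension of (the direction of) its affine hull. -/
noncomputable def BC.dim (A : BC X) : Cardinal.{u} :=
  Module.rank ℝ (affineSpan ℝ A.carrier).direction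

/-- The full form of the strong law of large numbers for the class of random sets with values in
`𝒞`: for every probability space and every uniformly bounded independent sequence of random sets
`Ψ n` with values in `𝒞` and expectations `U n`, the Hausdorff distance between the Minkowski
averages of the `Ψ i ω` and of the `U i` tends to `0` for almost every `ω`. -/
def FullSLLN (𝒞 : Set (BC X)) : Prop :=
  ∀ (Ω : Type v) [MeasurableSpace Ω] (P : Measure Ω) [IsProbabilityMeasure P]
    [MeasurableSpace (ZSpace X)] [BorelSpace (ZSpace X)]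
    (Ψ : ℕ → Ω → BC X) (U : ℕ → BC X),
    (∀ n ω, Ψ n ω ∈ 𝒞) →
    (∀ n, Measurable fun ω => (Ψ n ω).R) →
    (∀ n, Integrable (fun ω => (Ψ n ω).R) P) →
    (∀ n, ∫ ω, (Ψ n ω).R ∂P = (U n).R) →
    iIndepFun (fun n ω => (Ψ n ω).R) P →
    (∃ M : ℝ, ∀ n ω, ∀ a ∈ (Ψ n ω).carrier, ‖a‖ ≤ M) →
    ∀ᵐ ω ∂P, Tendsto (fun n : ℕ =>
      Metric.hausdorffDist ((n:ℝ)⁻¹ • ∑ i ∈ Finset.range n, (Ψ i ω).carrier)
        ((n:ℝ)⁻¹ • ∑ i ∈ Finset.range n, (U i).carrier)) atTop (𝓝 0)

end BCdef

end Pool.Agent.Lib.Pd665d0
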