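import Pool.Agent.Lib.Pd665d0.Basic

/-!
# The full strong law for random sets of bounded dimension in B-convex spaces

Let `X` be a B-convex Banach space and `d` a natural number.  We prove that the full form of the
strong law of large numbers holds for uniformly bounded independent (not necessarily identically
distributed) sequences of random sets all of whose values are nonempty bounded convex sets of
dimension at most `d` (in particular: exactly `d`).

Outline of the proof.
* B-convexity gives, for each `η`, an `N` with `2^{-N} ∑_ε ‖∑_{i<N} ε_i x_i‖ ≤ η N` on the ball.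
* A bounded convex set of dimension `≤ d` is `η`-close to a polytope with `K(η, d)` vertices
  (volumetric packing bound), whose support function is a maximum of `K` linear functionals.
* The Ledoux-Talagrand contraction principle, applied through `max(a,b) = (a+b+|a-b|)/2`,
  transfers the Rademacher bound from vectors to support functions, uniformly over all such sets.
* Symmetrisation bounds the mean block norms; Hoeffding's inequality for the (independent, real)
  block norms and the Borel-Cantelli lemma give almost sure convergence in `Z`.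
* Hahn-Banach: the Hausdorff distance is bounded by the distance of the support functions.
-/

open MeasureTheory ProbabilityTheory Filter Topology Finset
open scoped Pointwise BoundedContinuousFunction NNReal ENNReal

namespace Pool.Agent.Lib.Pd665d0

universe u v

section Rademacher

variable {E : Type u} [NormedAddCommGroup E]

lemma norm_units_smul (e : ℤˣ) (x : E) : ‖e • x‖ = ‖x‖ := by
  rcases Int.units_eq_one_or e with h | h <;> simp [h, Units.smul_def]

/-- The sum over all sign patterns of the norm of the signed sum. -/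
noncomputable def radSum {ι : Type*} [Fintype ι] [DecidableEq ι] {E : Type*}
    [NormedAddCommGroup E] (g : ι → E) : ℝ :=
  ∑ ε : ι → ℤˣ, ‖∑ i, ε i • g i‖

/-- The quadratic Rademacher inequality with constant `C` for families indexed by `ι`. -/
def QProp (ι : Type*) [Fintype ι] [DecidableEq ι] (E : Type u) [NormedAddCommGroup E]
    (C : ℝ) : Prop :=
  ∀ x : ι → E, ∑ ε : ι → ℤˣ, ‖∑ i, ε i • x i‖ ^ 2 ≤ 2 ^ (Fintype.card ι) * (C * ∑ i, ‖x i‖ ^ 2)

lemma QProp.congr {ι κ : Type*} [Fintype ι] [DecidableEq ι] [Fintype κ] [DecidableEq κ]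
    (e : ι ≃ κ) {C : ℝ} (h : QProp ι E C) : QProp κ E C := by
  intro x
  have := h (fun i => x (e i))
  rw [Fintype.card_congr e] at this
  rw [Equiv.sum_comp e (fun j => ‖x j‖ ^ 2)] at this
  refine le_of_eq_of_le ?_ this
  refine (Fintype.sum_equiv (Equiv.arrowCongr e.symm (Equiv.refl _)) _ _ ?_)
  intro ε
  congr 2
  rw [← Equiv.sum_comp e]
  rfl

lemma card_signs (ι : Type*) [Fintype ι] [DecidableEq ι] :
    Fintype.card (ι → ℤˣ) = 2 ^ Fintype.card ι := by
  simp

lemma QProp.prod {ι κ : Type*} [Fintype ι] [DecidableEq ι] [Fintype κ] [DecidableEq κ]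
    {C D : ℝ} (hC : 0 ≤ C) (h : QProp ι E C) (h' : QProp κ E D) : QProp (ι × κ) E (C * D) := by
  intro x
  -- reindex sign patterns by currying
  have hcurry : ∑ ε : ι × κ → ℤˣ, ‖∑ p, ε p • x p‖ ^ 2
      = ∑ ε : ι → κ → ℤˣ, ‖∑ j, ∑ i, ε j i • x (j, i)‖ ^ 2 := by
    refine Fintype.sum_equiv (Equiv.curry _ _ _) _ _ ?_
    intro ε
    congr 2
    rw [Fintype.sum_prod_type]
    rfl
  rw [hcurry]
  set y : ι → (κ → ℤˣ) → E := fun j e => ∑ i, e i • x (j, i) with hy
  have hflip : ∀ u : ι → ℤˣ, ∑ ε : ι → κ → ℤˣ, ‖∑ j, y j (ε j)‖ ^ 2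
      = ∑ ε : ι → κ → ℤˣ, ‖∑ j, u j • y j (ε j)‖ ^ 2 := by
    intro u
    symm
    refine Fintype.sum_equiv (Equiv.mulLeft (fun j _ => u j)) _ _ ?_
    intro ε
    congr 2
    refine Finset.sum_congr rfl fun j _ => ?_
    simp only [hy, Finset.smul_sum, Equiv.coe_mulLeft, Pi.mul_apply, mul_smul]
  have h2 : (2:ℝ) ^ Fintype.card ι * ∑ ε : ι → κ → ℤˣ, ‖∑ j, y j (ε j)‖ ^ 2
      = ∑ ε : ι → κ → ℤˣ, ∑ u : ι → ℤˣ, ‖∑ j, u j • y j (ε j)‖ ^ 2 := by
    rw [Finset.sum_comm]
    rw [← Finset.sum_congr rfl (fun u _ => hflip u)]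
    simp
  have h3 : ∑ ε : ι → κ → ℤˣ, ∑ u : ι → ℤˣ, ‖∑ j, u j • y j (ε j)‖ ^ 2
      ≤ ∑ ε : ι → κ → ℤˣ, (2:ℝ) ^ Fintype.card ι * (C * ∑ j, ‖y j (ε j)‖ ^ 2) :=
    Finset.sum_le_sum fun ε _ => h (fun j => y j (ε j))
  have hpos : (0:ℝ) < 2 ^ Fintype.card ι := by positivity
  have h4 : ∑ ε : ι → κ → ℤˣ, ‖∑ j, y j (ε j)‖ ^ 2
      ≤ C * ∑ j, ∑ ε : ι → κ → ℤˣ, ‖y j (ε j)‖ ^ 2 := by
    rw [← mul_le_mul_iff_right₀ hpos, h2]
    refine h3.trans (le_of_eq ?_)
    rw [← Finset.mul_sum, ← Finset.mul_sum, Finset.sum_comm]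
  -- marginalisation
  have hmarg : ∀ j, ∑ ε : ι → κ → ℤˣ, ‖y j (ε j)‖ ^ 2
      ≤ (2:ℝ) ^ (Fintype.card ι * Fintype.card κ) * (D * ∑ i, ‖x (j, i)‖ ^ 2) := by
    intro j
    have key : ∑ ε : ι → κ → ℤˣ, ‖y j (ε j)‖ ^ 2
        = (2:ℝ) ^ ((Fintype.card ι - 1) * Fintype.card κ) * ∑ e : κ → ℤˣ, ‖y j e‖ ^ 2 := by
      have := Finset.prod_univ_sum (R := ℝ) (κ := fun _ : ι => (κ → ℤˣ)) (fun _ => Finset.univ)
        (fun i e => if i = j then ‖y j e‖ ^ 2 else 1)
      have lhs : ∏ i : ι, ∑ e : κ → ℤˣ, (if i = j then ‖y j e‖ ^ 2 else (1:ℝ))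
          = (2:ℝ) ^ ((Fintype.card ι - 1) * Fintype.card κ) * ∑ e : κ → ℤˣ, ‖y j e‖ ^ 2 := by
        rw [← Finset.mul_prod_erase _ _ (Finset.mem_univ j), mul_comm]
        congr 1
        · rw [Finset.prod_congr rfl (g := fun _ => (2:ℝ) ^ Fintype.card κ)]
          · rw [Finset.prod_const, Finset.card_erase_of_mem (Finset.mem_univ j), Finset.card_univ,
              ← pow_mul, mul_comm]
          · intro i hi
            have : i ≠ j := Finset.ne_of_mem_erase hi
            simp [this]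
        · simp
      rw [← lhs, this]
      simp only [Fintype.piFinset_univ]
      refine Finset.sum_congr rfl fun ε _ => ?_
      rw [← Finset.mul_prod_erase _ _ (Finset.mem_univ j)]
      rw [Finset.prod_eq_one]
      · simp
      · intro i hi
        have : i ≠ j := Finset.ne_of_mem_erase hi
        simp [this]
    rw [key]
    have hc : 1 ≤ Fintype.card ι := Fintype.card_pos_iff.2 ⟨j⟩
    have e1 : (2:ℝ) ^ (Fintype.card ι * Fintype.card κ)
        = (2:ℝ) ^ ((Fintype.card ι - 1) * Fintype.card κ) * 2 ^ Fintype.card κ := by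
      rw [← pow_add]
      congr 1
      obtain ⟨n, hn⟩ := Nat.exists_eq_add_of_le hc
      rw [hn]; simp; ring
    rw [e1, mul_assoc]
    refine mul_le_mul_of_nonneg_left ?_ (by positivity)
    exact h' (fun i => x (j, i))
  calc ∑ ε : ι → κ → ℤˣ, ‖∑ j, ∑ i, ε j i • x (j, i)‖ ^ 2
      ≤ C * ∑ j, ∑ ε : ι → κ → ℤˣ, ‖y j (ε j)‖ ^ 2 := h4
    _ ≤ C * ∑ j, ((2:ℝ) ^ (Fintype.card ι * Fintype.card κ) * (D * ∑ i, ‖x (j, i)‖ ^ 2)) :=
        mul_le_mul_of_nonneg_left (Finset.sum_le_sum fun j _ => hmarg j) hC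
    _ = 2 ^ Fintype.card (ι × κ) * (C * D * ∑ p, ‖x p‖ ^ 2) := by
        rw [← Finset.mul_sum, ← Finset.mul_sum, Fintype.card_prod, Fintype.sum_prod_type]
        ring

end Rademacher

lemma QProp.of_isBConvex_aux {X : Type u} [NormedAddCommGroup X] [NormedSpace ℝ X]
    {k : ℕ} (hk : 2 ≤ k) {δ : ℝ} (hδ : 0 < δ)
    (h : ∀ x : Fin k → X, (∀ i, ‖x i‖ ≤ 1) →
      ∃ s : Fin k → ℝ, (∀ i, s i = 1 ∨ s i = -1) ∧ ‖∑ i, s i • x i‖ ≤ k * (1 - δ)) :
    δ ≤ 1 ∧ QProp (Fin k) X ((1 - δ / 2 ^ k) * k) := by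
  have hk0 : (0:ℝ) < k := by positivity
  have hδ1 : δ ≤ 1 := by
    obtain ⟨s, -, hs⟩ := h 0 (by simp)
    simp only [Pi.zero_apply, smul_zero, Finset.sum_const_zero, norm_zero] at hs
    by_contra hcon
    push Not at hcon
    nlinarith
  refine ⟨hδ1, ?_⟩
  intro x
  have : Nonempty (Fin k) := ⟨⟨0, by omega⟩⟩
  -- normalised vectors
  obtain ⟨j₀, hj₀⟩ := Finite.exists_min (fun i => ‖x i‖)
  set m : ℝ := ‖x j₀‖ with hm
  have hm0 : 0 ≤ m := norm_nonneg _
  set T : ℝ := ∑ i, ‖x i‖ with hT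
  set S : ℝ := ∑ i, ‖x i‖ ^ 2 with hS
  set a : ℝ := T / k with ha
  have hTa : T = k * a := by rw [ha]; field_simp
  set w : Fin k → X := fun i => (‖x i‖)⁻¹ • x i with hw
  have hw1 : ∀ i, ‖w i‖ ≤ 1 := by
    intro i
    simp only [hw, norm_smul, norm_inv, norm_norm]
    by_cases hxi : ‖x i‖ = 0
    · simp [hxi]
    · rw [inv_mul_cancel₀ hxi]
  have hxw : ∀ i, x i = ‖x i‖ • w i := by
    intro i
    by_cases hxi : ‖x i‖ = 0
    · simp only [hw, hxi, zero_smul]; exact norm_eq_zero.1 hxi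
    · simp only [hw, smul_smul]; rw [mul_inv_cancel₀ hxi, one_smul]
  obtain ⟨s, hs1, hs2⟩ := h w hw1
  have hsabs : ∀ i, |s i| = 1 := by
    intro i; rcases hs1 i with h | h <;> simp [h]
  -- good sign pattern as units
  set e₀ : Fin k → ℤˣ := fun i => if s i = 1 then 1 else -1 with he₀
  have he₀s : ∀ i, e₀ i • x i = s i • x i := by
    intro i
    rcases hs1 i with h | h
    · simp [he₀, h]
    · have : ¬ ((-1:ℝ) = 1) := by norm_num
      simp [he₀, h, this, Units.smul_def]
  have hgood : ‖∑ i, e₀ i • x i‖ ≤ T - k * m * δ := by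
    have : ∑ i, e₀ i • x i = m • (∑ i, s i • w i) + ∑ i, (s i * (‖x i‖ - m)) • w i := by
      rw [Finset.smul_sum, ← Finset.sum_add_distrib]
      refine Finset.sum_congr rfl fun i _ => ?_
      rw [he₀s]
      have e1 : s i • x i = (s i * ‖x i‖) • w i := by rw [mul_smul, ← hxw i]
      have e2 : m • s i • w i = (m * s i) • w i := by rw [mul_smul]
      rw [e1, e2, ← add_smul]
      congr 1
      ring
    rw [this]
    calc ‖m • (∑ i, s i • w i) + ∑ i, (s i * (‖x i‖ - m)) • w i‖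
        ≤ ‖m • (∑ i, s i • w i)‖ + ‖∑ i, (s i * (‖x i‖ - m)) • w i‖ := norm_add_le _ _
      _ ≤ m * (k * (1 - δ)) + ∑ i, (‖x i‖ - m) := by
          refine add_le_add ?_ ?_
          · rw [norm_smul, Real.norm_of_nonneg hm0]
            exact mul_le_mul_of_nonneg_left hs2 hm0
          · refine (norm_sum_le _ _).trans (Finset.sum_le_sum fun i _ => ?_)
            rw [norm_smul, norm_mul, Real.norm_eq_abs, Real.norm_eq_abs, hsabs, one_mul,
              abs_of_nonneg (sub_nonneg.2 (hj₀ i))]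
            exact mul_le_of_le_one_right (sub_nonneg.2 (hj₀ i)) (hw1 i)
      _ = T - k * m * δ := by
          rw [Finset.sum_sub_distrib, Finset.sum_const, Finset.card_univ, Fintype.card_fin,
            nsmul_eq_mul]
          ring
  have htriv : ∀ e : Fin k → ℤˣ, ‖∑ i, e i • x i‖ ^ 2 ≤ T ^ 2 := by
    intro e
    refine pow_le_pow_left₀ (norm_nonneg _) ?_ 2
    refine (norm_sum_le _ _).trans (le_of_eq ?_)
    exact Finset.sum_congr rfl fun i _ => norm_units_smul _ _
  have hgood2 : ‖∑ i, e₀ i • x i‖ ^ 2 ≤ (T - k * m * δ) ^ 2 :=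
    pow_le_pow_left₀ (norm_nonneg _) hgood 2
  have hsum : ∑ ε : Fin k → ℤˣ, ‖∑ i, ε i • x i‖ ^ 2
      ≤ (2 ^ k - 1) * T ^ 2 + (T - k * m * δ) ^ 2 := by
    rw [← Finset.sum_erase_add _ _ (Finset.mem_univ e₀)]
    refine add_le_add ?_ hgood2
    refine (Finset.sum_le_sum (g := fun _ => T ^ 2) fun e _ => htriv e).trans (le_of_eq ?_)
    rw [Finset.sum_const, Finset.card_erase_of_mem (Finset.mem_univ _), Finset.card_univ,
      nsmul_eq_mul]
    simp
  -- variance
  have hvar : (a - m) ^ 2 ≤ S - k * a ^ 2 := by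
    have h1 : ∑ i, (‖x i‖ - a) ^ 2 = S - k * a ^ 2 := by
      simp only [sub_sq]
      rw [Finset.sum_add_distrib, Finset.sum_sub_distrib]
      simp only [← Finset.mul_sum, ← Finset.sum_mul]
      rw [Finset.sum_const, Finset.card_univ, Fintype.card_fin, nsmul_eq_mul, ← hS, ← hT, hTa]
      ring
    rw [← h1]
    have := Finset.single_le_sum (f := fun i => (‖x i‖ - a) ^ 2)
      (fun i _ => sq_nonneg _) (Finset.mem_univ j₀)
    simp only [← hm] at this
    nlinarith
  have ham : m ≤ a := by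
    rw [ha, le_div_iff₀ hk0]
    calc m * k = ∑ i : Fin k, m := by
          rw [Finset.sum_const, Finset.card_univ, Fintype.card_fin, nsmul_eq_mul]; ring
      _ ≤ T := Finset.sum_le_sum fun i _ => hj₀ i
  have hconv : (a - m * δ) ^ 2 ≤ (1 - δ) * a ^ 2 + δ * (a - m) ^ 2 := by
    have : a - m * δ = (1 - δ) * a + δ * (a - m) := by ring
    nlinarith [mul_nonneg (mul_nonneg hδ.le (sub_nonneg.2 hδ1)) (sq_nonneg m)]
  have h2k : (k:ℝ) + 1 ≤ 2 ^ k := by
    have : k + 1 ≤ 2 ^ k := Nat.lt_two_pow_self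
    exact_mod_cast this
  have hpow : (0:ℝ) < 2 ^ k := by positivity
  rw [Fintype.card_fin]
  refine hsum.trans ?_
  have hrhs : (2:ℝ) ^ k * ((1 - δ / 2 ^ k) * k * S) = (2 ^ k - δ) * (k * S) := by
    field_simp
  rw [hrhs, hTa]
  have e1 : (2 ^ k - 1) * (k * a) ^ 2 + (k * a - k * m * δ) ^ 2
      = (k:ℝ) ^ 2 * ((2 ^ k - 1) * a ^ 2 + (a - m * δ) ^ 2) := by ring
  rw [e1]
  have hS' : (k:ℝ) * a ^ 2 + (a - m) ^ 2 ≤ S := by linarith
  calc (k:ℝ) ^ 2 * ((2 ^ k - 1) * a ^ 2 + (a - m * δ) ^ 2)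
      ≤ (k:ℝ) ^ 2 * ((2 ^ k - δ) * a ^ 2 + δ * (a - m) ^ 2) := by
        refine mul_le_mul_of_nonneg_left ?_ (by positivity)
        linarith
    _ ≤ (2 ^ k - δ) * (k * (k * a ^ 2 + (a - m) ^ 2)) := by
        have h3 : (k:ℝ) * δ ≤ 2 ^ k - δ := by nlinarith
        nlinarith [mul_nonneg (mul_nonneg hk0.le (sub_nonneg.2 h3)) (sq_nonneg (a - m))]
    _ ≤ (2 ^ k - δ) * (k * S) := by
        refine mul_le_mul_of_nonneg_left ?_ (by linarith)
        exact mul_le_mul_of_nonneg_left hS' hk0.le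

lemma QProp.pow {E : Type u} [NormedAddCommGroup E] {k : ℕ} {C : ℝ} (hC : 0 ≤ C)
    (h : QProp (Fin k) E C) (r : ℕ) : QProp (Fin (k ^ r)) E (C ^ r) := by
  induction r with
  | zero =>
    have h1 : QProp (Fin 1) E 1 := by
      intro x
      have : ∀ ε : Fin 1 → ℤˣ, ‖∑ i, ε i • x i‖ ^ 2 = ‖x 0‖ ^ 2 := by
        intro ε
        rw [Fin.sum_univ_one, norm_units_smul]
      rw [Finset.sum_congr rfl fun ε _ => this ε]
      simp
    simpa using h1
  | succ r ih =>
    rw [pow_succ C]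
    have h1 : QProp (Fin (k ^ r) × Fin k) E (C ^ r * C) := ih.prod (by positivity) h
    have h2 := h1.congr finProdFinEquiv
    rwa [← pow_succ k] at h2

/-- In a B-convex space Rademacher averages of bounded vectors are uniformly small. -/
lemma exists_small_rad {X : Type u} [NormedAddCommGroup X] [NormedSpace ℝ X] (hX : IsBConvex X)
    {η : ℝ} (hη : 0 < η) :
    ∃ N : ℕ, 0 < N ∧ ∀ x : Fin N → X, (∀ i, ‖x i‖ ≤ 1) →
      ∑ ε : Fin N → ℤˣ, ‖∑ i, ε i • x i‖ ≤ 2 ^ N * (N * η) := by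
  obtain ⟨k, hk, δ, hδ, h⟩ := hX
  obtain ⟨hδ1, hQ⟩ := QProp.of_isBConvex_aux hk hδ h
  have hk0 : (0:ℝ) < k := by positivity
  set c : ℝ := 1 - δ / 2 ^ k with hc
  have hpow : (1:ℝ) ≤ 2 ^ k := one_le_pow₀ (by norm_num)
  have hc0 : 0 ≤ c := by
    rw [hc, sub_nonneg, div_le_one (by positivity)]; linarith
  have hc1 : c < 1 := by
    have : 0 < δ / 2 ^ k := by positivity
    linarith
  obtain ⟨r, hr⟩ := exists_pow_lt_of_lt_one (pow_pos hη 2) hc1
  obtain ⟨N, hN⟩ : ∃ N : ℕ, N = k ^ r := ⟨_, rfl⟩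
  have hQN := hQ.pow (by positivity) r
  rw [← hN] at hQN
  refine ⟨N, by rw [hN]; positivity, ?_⟩
  intro x hx
  have hQr := hQN x
  have hcard : (Fintype.card (Fin N → ℤˣ) : ℝ) = 2 ^ N := by simp
  have hCS : (∑ ε : Fin N → ℤˣ, ‖∑ i, ε i • x i‖) ^ 2
      ≤ 2 ^ N * ∑ ε : Fin N → ℤˣ, ‖∑ i, ε i • x i‖ ^ 2 := by
    have := sq_sum_le_card_mul_sum_sq (s := (Finset.univ : Finset (Fin N → ℤˣ)))
      (f := fun ε => ‖∑ i, ε i • x i‖)
    rwa [Finset.card_univ, hcard] at this
  have hx2 : ∑ i, ‖x i‖ ^ 2 ≤ N := by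
    calc ∑ i, ‖x i‖ ^ 2 ≤ ∑ i : Fin N, (1:ℝ) := by
          refine Finset.sum_le_sum fun i _ => ?_
          exact pow_le_one₀ (norm_nonneg _) (hx i)
      _ = N := by simp
  have hNr : (N:ℝ) = k ^ r := by rw [hN]; push_cast; rfl
  have hle : (∑ ε : Fin N → ℤˣ, ‖∑ i, ε i • x i‖) ^ 2 ≤ (2 ^ N * (N * η)) ^ 2 := by
    calc (∑ ε : Fin N → ℤˣ, ‖∑ i, ε i • x i‖) ^ 2
        ≤ 2 ^ N * ∑ ε : Fin N → ℤˣ, ‖∑ i, ε i • x i‖ ^ 2 := hCS
      _ ≤ 2 ^ N * (2 ^ N * ((c * k) ^ r * ∑ i, ‖x i‖ ^ 2)) := by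
          refine mul_le_mul_of_nonneg_left ?_ (by positivity)
          simpa [Fintype.card_fin] using hQr
      _ ≤ 2 ^ N * (2 ^ N * ((c * k) ^ r * N)) := by
          gcongr
      _ = (2 ^ N * N) ^ 2 * c ^ r := by
          rw [mul_pow c, ← hNr]; ring
      _ ≤ (2 ^ N * N) ^ 2 * η ^ 2 := by
          gcongr
      _ = (2 ^ N * (N * η)) ^ 2 := by ring
  exact le_of_sq_le_sq hle (by positivity)

section seminorm

variable {ι : Type*} [Fintype ι] [DecidableEq ι] {E : Type*} [NormedAddCommGroup E]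

lemma radSum_nonneg (g : ι → E) : 0 ≤ radSum g := Finset.sum_nonneg fun _ _ => norm_nonneg _

lemma radSum_add_le (g h : ι → E) : radSum (fun i => g i + h i) ≤ radSum g + radSum h := by
  unfold radSum
  rw [← Finset.sum_add_distrib]
  refine Finset.sum_le_sum fun ε _ => ?_
  simp only [smul_add, Finset.sum_add_distrib]
  exact norm_add_le _ _

lemma radSum_neg (g : ι → E) : radSum (fun i => - g i) = radSum g := by
  unfold radSum
  refine Finset.sum_congr rfl fun ε _ => ?_
  simp only [smul_neg, Finset.sum_neg_distrib, norm_neg]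

lemma radSum_sub_le (g h : ι → E) : radSum (fun i => g i - h i) ≤ radSum g + radSum h := by
  simp only [sub_eq_add_neg]
  exact (radSum_add_le _ _).trans (by rw [radSum_neg])

lemma radSum_smul [NormedSpace ℝ E] (c : ℝ) (hc : 0 ≤ c) (g : ι → E) :
    radSum (fun i => c • g i) = c * radSum g := by
  unfold radSum
  rw [Finset.mul_sum]
  refine Finset.sum_congr rfl fun ε _ => ?_
  have : ∀ i, ε i • c • g i = c • ε i • g i := fun i => by
    rcases Int.units_eq_one_or (ε i) with h | h <;> simp [h, Units.smul_def]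
  simp only [this, ← Finset.smul_sum, norm_smul, Real.norm_of_nonneg hc]

lemma radSum_le_card (g : ι → E) {C : ℝ} (hC : ∀ i, ‖g i‖ ≤ C) :
    radSum g ≤ 2 ^ Fintype.card ι * (Fintype.card ι * C) := by
  unfold radSum
  calc ∑ ε : ι → ℤˣ, ‖∑ i, ε i • g i‖ ≤ ∑ ε : ι → ℤˣ, (Fintype.card ι * C) := by
        refine Finset.sum_le_sum fun ε _ => ?_
        refine (norm_sum_le _ _).trans ?_
        simp only [norm_units_smul]
        refine (Finset.sum_le_sum fun i _ => hC i).trans ?_
        rw [Finset.sum_const, Finset.card_univ, nsmul_eq_mul]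
    _ = _ := by
        rw [Finset.sum_const, Finset.card_univ, nsmul_eq_mul]
        simp

end seminorm

section contraction

variable {T : Type*} [TopologicalSpace T]

/-- the sup of the positive part -/
noncomputable def pp (z : T →ᵇ ℝ) : ℝ := ‖z ⊔ 0‖

lemma pp_nonneg (z : T →ᵇ ℝ) : 0 ≤ pp z := norm_nonneg _

lemma le_pp (z : T →ᵇ ℝ) (t : T) : z t ≤ pp z := by
  have h1 : ‖(z ⊔ 0) t‖ ≤ ‖z ⊔ 0‖ := (z ⊔ 0).norm_coe_le_norm t
  have h2 : (z ⊔ 0) t = max (z t) 0 := rfl
  rw [h2, Real.norm_of_nonneg (le_max_right _ _)] at h1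
  exact (le_max_left _ _).trans h1

lemma pp_le {z : T →ᵇ ℝ} {C : ℝ} (hC : 0 ≤ C) (h : ∀ t, z t ≤ C) : pp z ≤ C := by
  unfold pp
  rw [BoundedContinuousFunction.norm_le hC]
  intro t
  have h2 : (z ⊔ 0) t = max (z t) 0 := rfl
  rw [h2, Real.norm_of_nonneg (le_max_right _ _)]
  exact max_le (h t) hC

lemma pp_le_norm (z : T →ᵇ ℝ) : pp z ≤ ‖z‖ :=
  pp_le (norm_nonneg _) fun t => (le_abs_self _).trans (z.norm_coe_le_norm t)

lemma norm_le_pp_add (z : T →ᵇ ℝ) : ‖z‖ ≤ pp z + pp (-z) := by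
  rw [BoundedContinuousFunction.norm_le (add_nonneg (pp_nonneg _) (pp_nonneg _))]
  intro t
  rw [Real.norm_eq_abs, abs_le]
  have h1 := le_pp z t
  have h2 := le_pp (-z) t
  have h3 : (-z) t = -(z t) := rfl
  rw [h3] at h2
  have := pp_nonneg z
  have := pp_nonneg (-z)
  constructor <;> linarith

lemma abs_bcf_apply (a : T →ᵇ ℝ) (t : T) : |a| t = |a t| := rfl

/-- The two-point contraction inequality. -/
lemma pp_two_point (w a : T →ᵇ ℝ) :
    pp (w + |a|) + pp (w - |a|) ≤ pp (w + a) + pp (w - a) := by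
  set C := pp (w + a) + pp (w - a) with hC
  have hplus : ∀ t, w t + a t ≤ pp (w + a) := fun t => le_pp (w + a) t
  have hminus : ∀ t, w t - a t ≤ pp (w - a) := fun t => le_pp (w - a) t
  have n1 := pp_nonneg (w + a)
  have n2 := pp_nonneg (w - a)
  -- pointwise bounds
  have b1 : ∀ t, w t + |a t| ≤ C := by
    intro t
    rcases abs_cases (a t) with ⟨h, _⟩ | ⟨h, _⟩
    · have := hplus t; rw [h]; linarith
    · have := hminus t; rw [h]; linarith
  have b2 : ∀ t, w t - |a t| ≤ C := by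
    intro t
    have := b1 t
    have := abs_nonneg (a t)
    linarith
  have b3 : ∀ t s, (w t + |a t|) + (w s - |a s|) ≤ C := by
    intro t s
    have h1 := hplus t
    have h2 := hminus t
    have h3 := hplus s
    have h4 := hminus s
    rcases abs_cases (a t) with ⟨h, _⟩ | ⟨h, _⟩ <;> rcases abs_cases (a s) with ⟨h', _⟩ | ⟨h', _⟩ <;>
      rw [h, h'] <;> linarith
  have hC0 : 0 ≤ C := by positivity
  have s1 : ∀ t, pp (w - |a|) ≤ C - max (w t + |a t|) 0 := by
    intro t
    refine pp_le ?_ ?_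
    · rw [sub_nonneg]; exact max_le (b1 t) hC0
    · intro s
      have h5 : (w - |a|) s = w s - |a s| := rfl
      rw [h5]
      rcases max_cases (w t + |a t|) 0 with ⟨h, _⟩ | ⟨h, _⟩ <;> rw [h]
      · have := b3 t s; linarith
      · have := b2 s; linarith
  have s2 : pp (w + |a|) ≤ C - pp (w - |a|) := by
    refine pp_le ?_ ?_
    · rw [sub_nonneg]
      exact pp_le hC0 fun s => b2 s
    · intro t
      have h5 : (w + |a|) t = w t + |a t| := rfl
      rw [h5]
      have := s1 t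
      have := le_max_left (w t + |a t|) 0
      linarith
  linarith

variable {ι : Type*} [Fintype ι] [DecidableEq ι]

lemma pp_contraction (g : ι → T →ᵇ ℝ) (s : Finset ι) :
    ∑ ε : ι → ℤˣ, pp (∑ i, ε i • (if i ∈ s then |g i| else g i))
      ≤ ∑ ε : ι → ℤˣ, pp (∑ i, ε i • g i) := by
  induction s using Finset.induction_on with
  | empty => simp
  | insert a s ha ih =>
    refine le_trans ?_ ih
    -- flipping the sign at `a`
    set fl : (ι → ℤˣ) ≃ (ι → ℤˣ) := Equiv.mulRight (Pi.mulSingle a (-1)) with hfl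
    have key : ∀ G : (ι → ℤˣ) → ℝ, 2 * ∑ ε, G ε = ∑ ε, (G ε + G (fl ε)) := by
      intro G
      rw [Finset.sum_add_distrib, Equiv.sum_comp fl G]
      ring
    rw [← mul_le_mul_iff_right₀ (zero_lt_two' ℝ), key, key]
    refine Finset.sum_le_sum fun ε _ => ?_
    -- separate coordinate a
    have hfla : fl ε a = - ε a := by simp [hfl]
    have hflb : ∀ i, i ≠ a → fl ε i = ε i := by
      intro i hi
      simp [hfl, Pi.mulSingle_eq_of_ne hi]
    set W : T →ᵇ ℝ := ∑ i ∈ Finset.univ.erase a, ε i • (if i ∈ s then |g i| else g i) with hW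
    have e1 : ∑ i, ε i • (if i ∈ insert a s then |g i| else g i) = W + ε a • |g a| := by
      rw [← Finset.sum_erase_add _ _ (Finset.mem_univ a)]
      congr 1
      · refine Finset.sum_congr rfl fun i hi => ?_
        have hia : i ≠ a := Finset.ne_of_mem_erase hi
        simp [hia]
      · simp
    have e2 : ∑ i, fl ε i • (if i ∈ insert a s then |g i| else g i) = W - ε a • |g a| := by
      rw [← Finset.sum_erase_add _ _ (Finset.mem_univ a), sub_eq_add_neg]
      congr 1
      · refine Finset.sum_congr rfl fun i hi => ?_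
        have hia : i ≠ a := Finset.ne_of_mem_erase hi
        simp [hia, hflb i hia]
      · rw [hfla]
        simp
    have e3 : ∑ i, ε i • (if i ∈ s then |g i| else g i) = W + ε a • g a := by
      rw [← Finset.sum_erase_add _ _ (Finset.mem_univ a)]
      simp [ha, hW]
    have e4 : ∑ i, fl ε i • (if i ∈ s then |g i| else g i) = W - ε a • g a := by
      rw [← Finset.sum_erase_add _ _ (Finset.mem_univ a), sub_eq_add_neg]
      congr 1
      · refine Finset.sum_congr rfl fun i hi => ?_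
        have hia : i ≠ a := Finset.ne_of_mem_erase hi
        simp [hflb i hia]
      · rw [hfla]
        simp [ha]
    rw [e1, e2, e3, e4]
    rcases Int.units_eq_one_or (ε a) with h | h
    · rw [h]
      simp only [one_smul]
      exact pp_two_point W (g a)
    · rw [h]
      have h7 : ∀ z : T →ᵇ ℝ, (-1 : ℤˣ) • z = -z := fun z => by simp [Units.smul_def]
      rw [h7, h7]
      simp only [sub_neg_eq_add, ← sub_eq_add_neg]
      have := pp_two_point W (g a)
      linarith

lemma radSum_abs_le (g : ι → T →ᵇ ℝ) : radSum (fun i => |g i|) ≤ 2 * radSum g := by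
  have h1 : ∑ ε : ι → ℤˣ, pp (∑ i, ε i • |g i|) ≤ ∑ ε : ι → ℤˣ, pp (∑ i, ε i • g i) := by
    have := pp_contraction g Finset.univ
    simpa using this
  have h2 : ∑ ε : ι → ℤˣ, pp (-∑ i, ε i • |g i|) = ∑ ε : ι → ℤˣ, pp (∑ i, ε i • |g i|) := by
    refine Fintype.sum_equiv (Equiv.neg _) _ _ ?_
    intro ε
    congr 1
    rw [← Finset.sum_neg_distrib]
    refine Finset.sum_congr rfl fun i _ => ?_
    simp
  calc radSum (fun i => |g i|)
      ≤ ∑ ε : ι → ℤˣ, (pp (∑ i, ε i • |g i|) + pp (-∑ i, ε i • |g i|)) :=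
        Finset.sum_le_sum fun ε _ => norm_le_pp_add _
    _ = 2 * ∑ ε : ι → ℤˣ, pp (∑ i, ε i • |g i|) := by
        rw [Finset.sum_add_distrib, h2]; ring
    _ ≤ 2 * ∑ ε : ι → ℤˣ, pp (∑ i, ε i • g i) := by linarith
    _ ≤ 2 * radSum g := by
        refine mul_le_mul_of_nonneg_left (Finset.sum_le_sum fun ε _ => pp_le_norm _) zero_le_two

lemma sup_eq_half (a b : T →ᵇ ℝ) : a ⊔ b = (1/2 : ℝ) • ((a + b) + |a - b|) := by
  ext t
  have h1 : (a ⊔ b) t = max (a t) (b t) := rfl
  have h2 : ((1/2 : ℝ) • ((a + b) + |a - b|)) t = (1/2 : ℝ) * ((a t + b t) + |a t - b t|) := rfl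
  rw [h1, h2, max_def]
  split_ifs with h
  · rw [abs_of_nonpos (by linarith)]; ring
  · rw [abs_of_nonneg (by linarith)]; ring

lemma radSum_sup_le (g h : ι → T →ᵇ ℝ) :
    radSum (fun i => g i ⊔ h i) ≤ 3 / 2 * (radSum g + radSum h) := by
  simp only [sup_eq_half]
  rw [radSum_smul _ (by norm_num)]
  have h1 := radSum_add_le (fun i => g i + h i) (fun i => |g i - h i|)
  have h2 := radSum_add_le g h
  have h3 := radSum_abs_le (fun i => g i - h i)
  have h4 := radSum_sub_le g h
  linarith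

end contraction

section cover

/-- volumetric bound for separated sets. -/
lemma card_le_of_sep {E : Type*} [NormedAddCommGroup E] [NormedSpace ℝ E] [FiniteDimensional ℝ E]
    {r η : ℝ} (hr : 0 ≤ r) (hη : 0 < η) (s : Finset E) (hs : ∀ c ∈ s, ‖c‖ ≤ r)
    (h : ∀ c ∈ s, ∀ d ∈ s, c ≠ d → η ≤ ‖c - d‖) :
    (s.card : ℝ) ≤ ((2 * r + η) / η) ^ Module.finrank ℝ E := by
  borelize E
  let μ : Measure E := Measure.addHaar
  let δ : ℝ := η / 2
  let ρ : ℝ := r + η / 2
  have δpos : 0 < δ := by positivity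
  have ρpos : 0 < ρ := by positivity
  set A := ⋃ c ∈ s, Metric.ball (c : E) δ with hA
  have D : Set.Pairwise (s : Set E) (Function.onFun Disjoint fun c => Metric.ball (c : E) δ) := by
    rintro c hc d hd hcd
    apply Metric.ball_disjoint_ball
    rw [dist_eq_norm]
    have := h c hc d hd hcd
    simp only [δ]; linarith
  have A_subset : A ⊆ Metric.ball (0 : E) ρ := by
    refine Set.iUnion₂_subset fun x hx => ?_
    apply Metric.ball_subset_ball'
    rw [dist_zero_right]
    have := hs x hx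
    simp only [δ, ρ]; linarith
  have I :
    (s.card : ℝ≥0∞) * ENNReal.ofReal (δ ^ Module.finrank ℝ E) * μ (Metric.ball 0 1) ≤
      ENNReal.ofReal (ρ ^ Module.finrank ℝ E) * μ (Metric.ball 0 1) :=
    calc
      (s.card : ℝ≥0∞) * ENNReal.ofReal (δ ^ Module.finrank ℝ E) * μ (Metric.ball 0 1) = μ A := by
        rw [hA, measure_biUnion_finset D fun c _ => measurableSet_ball]
        simp only [μ.addHaar_ball_of_pos _ δpos]
        simp only [Finset.sum_const, nsmul_eq_mul, mul_assoc]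
      _ ≤ μ (Metric.ball (0 : E) ρ) := measure_mono A_subset
      _ = ENNReal.ofReal (ρ ^ Module.finrank ℝ E) * μ (Metric.ball 0 1) := by
        simp only [μ.addHaar_ball_of_pos _ ρpos]
  have J : (s.card : ℝ≥0∞) * ENNReal.ofReal (δ ^ Module.finrank ℝ E)
      ≤ ENNReal.ofReal (ρ ^ Module.finrank ℝ E) :=
    (ENNReal.mul_le_mul_iff_left (Metric.measure_ball_pos _ _ zero_lt_one).ne' measure_ball_lt_top.ne).1 I
  have K := ENNReal.toReal_le_of_le_ofReal (pow_nonneg ρpos.le _) J
  rw [ENNReal.toReal_mul, ENNReal.toReal_natCast, ENNReal.toReal_ofReal (by positivity)] at K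
  have e1 : (2 * r + η) / η = ρ / δ := by
    simp only [ρ, δ]; field_simp
  rw [e1, div_pow, le_div_iff₀ (by positivity)]
  exact K

/-- Uniform polytope approximation of bounded convex sets of dimension at most `d`. -/
lemma exists_net {X : Type u} [NormedAddCommGroup X] [NormedSpace ℝ X] (d : ℕ) (M : ℝ)
    {η : ℝ} (hη : 0 < η) :
    ∃ K : ℕ, ∀ A : Set X, A.Nonempty → (∀ a ∈ A, ‖a‖ ≤ M) →
      Module.rank ℝ (vectorSpan ℝ A) ≤ d →
      ∃ a : ℕ → X, (∀ k, a k ∈ A) ∧ ∀ x ∈ A, ∃ k ≤ K, ‖x - a k‖ ≤ η := by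
  classical
  -- uniform bound on the cardinality
  set B : ℝ := ((2 * (2 * |M|) + η) / η) ^ d with hB
  have hbase : 1 ≤ (2 * (2 * |M|) + η) / η := by
    rw [le_div_iff₀ hη]
    have := abs_nonneg M
    linarith
  refine ⟨⌈B⌉₊, ?_⟩
  intro A hA hM hdim
  obtain ⟨a₀, ha₀⟩ := hA
  have hfin : Module.rank ℝ (vectorSpan ℝ A) < Cardinal.aleph0 :=
    lt_of_le_of_lt hdim (Cardinal.natCast_lt_aleph0)
  have : FiniteDimensional ℝ (vectorSpan ℝ A) := Module.rank_lt_aleph0_iff.1 hfin
  have hfr : Module.finrank ℝ (vectorSpan ℝ A) ≤ d := by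
    have := Module.finrank_eq_rank ℝ (vectorSpan ℝ A)
    rw [← this] at hdim
    exact_mod_cast hdim
  have hcard : ∀ s : Finset X, (s : Set X) ⊆ A →
      (∀ c ∈ s, ∀ e ∈ s, c ≠ e → η ≤ ‖c - e‖) → s.card ≤ ⌈B⌉₊ := by
    intro s hsA hsep
    have hmem : ∀ c : s, (c : X) - a₀ ∈ vectorSpan ℝ A := fun c =>
      vsub_mem_vectorSpan ℝ (hsA c.2) ha₀
    set f : s → vectorSpan ℝ A := fun c => ⟨(c : X) - a₀, hmem c⟩ with hf
    have hinj : Function.Injective f := by
      intro c e hce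
      have : (c : X) - a₀ = (e : X) - a₀ := congrArg Subtype.val hce
      exact Subtype.ext (sub_left_inj.1 this)
    have h1 := card_le_of_sep (r := 2 * |M|) (by positivity) hη (Finset.univ.image f) ?_ ?_
    · rw [Finset.card_image_of_injective _ hinj, Finset.card_univ, Fintype.card_coe] at h1
      have h2 : (s.card : ℝ) ≤ B :=
        h1.trans (pow_le_pow_right₀ hbase hfr)
      exact_mod_cast h2.trans (Nat.le_ceil B)
    · intro c hc
      obtain ⟨e, -, rfl⟩ := Finset.mem_image.1 hc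
      have h3 : ‖f e‖ = ‖(e : X) - a₀‖ := rfl
      rw [h3]
      have h4 := norm_sub_le (e : X) a₀
      have h5 := hM _ (hsA e.2)
      have h6 := hM _ ha₀
      have h7 := le_abs_self M
      linarith
    · intro c hc e he hce
      obtain ⟨c', -, rfl⟩ := Finset.mem_image.1 hc
      obtain ⟨e', -, rfl⟩ := Finset.mem_image.1 he
      have h3 : ‖f c' - f e'‖ = ‖(c' : X) - (e' : X)‖ := by
        have : ((f c' - f e' : vectorSpan ℝ A) : X) = (c' : X) - (e' : X) := by
          simp [hf]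
        rw [← this]; rfl
      rw [h3]
      refine hsep _ c'.2 _ e'.2 ?_
      intro h; exact hce (by rw [Subtype.ext h])
  -- maximal separated subset
  let P : ℕ → Prop := fun n => ∃ s : Finset X, (s : Set X) ⊆ A ∧
      (∀ c ∈ s, ∀ e ∈ s, c ≠ e → η ≤ ‖c - e‖) ∧ s.card = n
  have hP0 : P 0 := ⟨∅, by simp, by simp, rfl⟩
  have hPb : ∀ n, P n → n ≤ ⌈B⌉₊ := by
    rintro n ⟨s, h1, h2, rfl⟩
    exact hcard s h1 h2
  obtain ⟨s, hsA, hsep, hsc⟩ := Nat.findGreatest_spec (P := P) (Nat.zero_le ⌈B⌉₊) hP0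
  have hmax : ∀ x ∈ A, ∃ c ∈ s, ‖x - c‖ ≤ η := by
    intro x hx
    by_contra! hcon
    have hxs : x ∉ s := by
      intro hxs
      have := hcon x hxs
      simp at this
      linarith
    have hP1 : P (s.card + 1) := by
      refine ⟨insert x s, ?_, ?_, Finset.card_insert_of_notMem hxs⟩
      · rw [Finset.coe_insert]
        exact Set.insert_subset hx hsA
      · intro c hc e he hce
        rw [Finset.mem_insert] at hc he
        rcases hc with rfl | hc <;> rcases he with rfl | he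
        · exact absurd rfl hce
        · exact (hcon e he).le
        · rw [norm_sub_rev]; exact (hcon c hc).le
        · exact hsep c hc e he hce
    have h1 := Nat.le_findGreatest (P := P) (hPb _ hP1) hP1
    omega
  -- enumerate
  have hsne : s.Nonempty := by
    obtain ⟨c, hc, -⟩ := hmax a₀ ha₀
    exact ⟨c, hc⟩
  have hlen : s.toList.length = s.card := Finset.length_toList s
  refine ⟨fun k => s.toList.getD k a₀, ?_, ?_⟩
  · intro k
    by_cases hk : k < s.toList.length
    · simp only [List.getD_eq_getElem?_getD, List.getElem?_eq_getElem hk, Option.getD_some]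
      exact hsA (Finset.mem_toList.1 (List.getElem_mem hk))
    · simp only [List.getD_eq_getElem?_getD]
      rw [List.getElem?_eq_none (not_lt.1 hk)]
      exact ha₀
  · intro x hx
    obtain ⟨c, hc, hxc⟩ := hmax x hx
    obtain ⟨k, hk, hkc⟩ := List.getElem_of_mem (Finset.mem_toList.2 hc)
    refine ⟨k, ?_, ?_⟩
    · have := hcard s hsA hsep
      omega
    · simp only [List.getD_eq_getElem?_getD, List.getElem?_eq_getElem hk, Option.getD_some]
      rw [hkc]; exact hxc

end cover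

section support2

variable {X : Type u} [NormedAddCommGroup X] [NormedSpace ℝ X]

lemma supp_add {A B : Set X} (hA : A.Nonempty) (hA' : Bornology.IsBounded A) (hB : B.Nonempty)
    (hB' : Bornology.IsBounded B) (f : StrongDual ℝ X) :
    supp (A + B) f = supp A f + supp B f := by
  apply le_antisymm
  · refine supp_le (hA.add hB) f ?_
    rintro _ ⟨a, ha, b, hb, rfl⟩
    simp only [map_add]
    exact add_le_add (le_supp hA' f ha) (le_supp hB' f hb)
  · have h1 : ∀ b ∈ B, supp A f ≤ supp (A + B) f - f b := by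
      intro b hb
      refine supp_le hA f fun a ha => ?_
      have := le_supp (hA'.add hB') f (Set.add_mem_add ha hb)
      rw [map_add] at this
      linarith
    have h2 : supp B f ≤ supp (A + B) f - supp A f := by
      refine supp_le hB f fun b hb => ?_
      have := h1 b hb
      linarith
    linarith

lemma supp_smul {A : Set X} (hA : A.Nonempty) (hA' : Bornology.IsBounded A) {t : ℝ} (ht : 0 ≤ t)
    (f : StrongDual ℝ X) : supp (t • A) f = t * supp A f := by
  apply le_antisymm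
  · refine supp_le (hA.smul_set) f ?_
    rintro _ ⟨a, ha, rfl⟩
    simp only [map_smul, smul_eq_mul]
    exact mul_le_mul_of_nonneg_left (le_supp hA' f ha) ht
  · rcases ht.eq_or_lt with h | h
    · rw [← h, zero_mul]
      obtain ⟨a, ha⟩ := hA
      have h0 : f ((0:ℝ) • a) ≤ supp ((0:ℝ) • A) f :=
        le_supp (hA'.smul₀ _) f (Set.smul_mem_smul_set ha)
      simpa using h0
    · rw [← le_div_iff₀' h]
      refine supp_le hA f fun a ha => ?_
      rw [le_div_iff₀' h]
      have : t * f a = f (t • a) := by simp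
      rw [this]
      exact le_supp (hA'.smul₀ _) f (Set.smul_mem_smul_set ha)

lemma sum_props {ι : Type*} [DecidableEq ι] (s : Finset ι) (A : ι → Set X)
    (hne : ∀ i, (A i).Nonempty) (hb : ∀ i, Bornology.IsBounded (A i)) (hc : ∀ i, Convex ℝ (A i)) :
    (∑ i ∈ s, A i).Nonempty ∧ Bornology.IsBounded (∑ i ∈ s, A i) ∧ Convex ℝ (∑ i ∈ s, A i) ∧
      ∀ f : StrongDual ℝ X, supp (∑ i ∈ s, A i) f = ∑ i ∈ s, supp (A i) f := by
  induction s using Finset.induction_on with
  | empty =>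
    simp only [Finset.sum_empty]
    refine ⟨Set.zero_nonempty, ?_, ?_, ?_⟩
    · exact Bornology.isBounded_singleton
    · exact convex_singleton 0
    · intro f
      show sSup ((fun a => f a) '' {0}) = 0
      simp
  | insert a s ha ih =>
    obtain ⟨h1, h2, h3, h4⟩ := ih
    rw [Finset.sum_insert ha]
    refine ⟨(hne a).add h1, (hb a).add h2, (hc a).add h3, ?_⟩
    intro f
    rw [supp_add (hne a) (hb a) h1 h2, h4, Finset.sum_insert ha]

/-- one-sided Hahn-Banach estimate. -/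
lemma infDist_le_of_supp {A B : Set X} (hAb : Bornology.IsBounded A)
    (hB : B.Nonempty) (hBc : Convex ℝ B) {r : ℝ} (hr : 0 ≤ r)
    (h : ∀ f : StrongDual ℝ X, ‖f‖ = 1 → supp A f - supp B f ≤ r) {a : X} (ha : a ∈ A) :
    Metric.infDist a B ≤ r := by
  by_contra! hcon
  set ρ := Metric.infDist a B with hρ
  have hρpos : 0 < ρ := lt_of_le_of_lt hr hcon
  have hdisj : Disjoint (Metric.ball a ρ) B := by
    rw [Set.disjoint_left]
    intro x hx hxB
    have := Metric.infDist_le_dist_of_mem (x := a) hxB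
    rw [Metric.mem_ball, dist_comm] at hx
    linarith
  obtain ⟨f, u, h1, h2⟩ := geometric_hahn_banach_open (convex_ball a ρ) Metric.isOpen_ball hBc hdisj
  have hf0 : f ≠ 0 := by
    rintro rfl
    obtain ⟨b, hb⟩ := hB
    have := h1 a (Metric.mem_ball_self hρpos)
    have := h2 b hb
    simp at *
    linarith
  have hfpos : 0 < ‖f‖ := norm_pos_iff.2 hf0
  -- f a + ρ' ‖f‖ ≤ u for ρ' < ρ
  have hkey : f a + ρ * ‖f‖ ≤ u := by
    by_contra! hlt
    have hq : (u - f a) / ρ < ‖f‖ := by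
      rw [div_lt_iff₀ hρpos]; linarith
    obtain ⟨x, hx1, hx2⟩ := f.exists_lt_apply_of_lt_opNorm hq
    have : ∃ y : X, ‖y‖ < 1 ∧ (u - f a) / ρ < f y := by
      rcases abs_cases (f x) with ⟨h, _⟩ | ⟨h, _⟩
      · exact ⟨x, hx1, by rw [Real.norm_eq_abs, h] at hx2; exact hx2⟩
      · refine ⟨-x, by rwa [norm_neg], ?_⟩
        rw [Real.norm_eq_abs, h] at hx2
        rw [map_neg]; exact hx2
    obtain ⟨y, hy1, hy2⟩ := this
    have hmem : a + ρ • y ∈ Metric.ball a ρ := by
      rw [mem_ball_iff_norm, add_sub_cancel_left, norm_smul, Real.norm_of_nonneg hρpos.le]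
      nlinarith
    have := h1 _ hmem
    rw [map_add, map_smul, smul_eq_mul] at this
    rw [div_lt_iff₀ hρpos] at hy2
    linarith
  -- the normalised functional
  set g : StrongDual ℝ X := (-(‖f‖)⁻¹) • f with hg
  have hgn : ‖g‖ = 1 := by
    rw [hg, norm_smul, norm_neg, norm_inv, norm_norm, inv_mul_cancel₀ hfpos.ne']
  have h3 := h g hgn
  have h4 : g a ≤ supp A g := le_supp hAb g ha
  have h5 : supp B g ≤ g a - ρ := by
    refine supp_le hB g fun b hb => ?_
    have h6 := h2 b hb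
    have h7 : g b = -(‖f‖)⁻¹ * f b := rfl
    have h8 : g a = -(‖f‖)⁻¹ * f a := rfl
    rw [h7, h8]
    have h9 : f a + ρ * ‖f‖ ≤ f b := hkey.trans h6
    have h10 : (‖f‖)⁻¹ * (f a + ρ * ‖f‖) ≤ (‖f‖)⁻¹ * f b :=
      mul_le_mul_of_nonneg_left h9 (by positivity)
    have h11 : (‖f‖)⁻¹ * (f a + ρ * ‖f‖) = (‖f‖)⁻¹ * f a + ρ := by
      field_simp
    linarith
  linarith

lemma hausdorffDist_le_of_supp {A B : Set X} (hA : A.Nonempty) (hAc : Convex ℝ A)
    (hAb : Bornology.IsBounded A)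
    (hB : B.Nonempty) (hBc : Convex ℝ B) (hBb : Bornology.IsBounded B) {r : ℝ} (hr : 0 ≤ r)
    (h : ∀ f : StrongDual ℝ X, ‖f‖ = 1 → |supp A f - supp B f| ≤ r) :
    Metric.hausdorffDist A B ≤ r := by
  refine Metric.hausdorffDist_le_of_infDist hr ?_ ?_
  · intro a ha
    exact infDist_le_of_supp hAb hB hBc hr (fun f hf => (le_abs_self _).trans (h f hf)) ha
  · intro b hb
    refine infDist_le_of_supp hBb hA hAc hr (fun f hf => ?_) hb
    have := h f hf
    rw [abs_sub_comm] at this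
    exact (le_abs_self _).trans this

end support2

section block

variable {X : Type u} [NormedAddCommGroup X] [NormedSpace ℝ X]

/-- evaluation at a point -/
noncomputable def ev (x : X) : ZSpace X where
  toFun f := f.1 x
  continuous_toFun := by fun_prop
  map_bounded' := by
    refine ⟨‖x‖ + ‖x‖, fun f g => ?_⟩
    rw [Real.dist_eq]
    have hf : ‖f.1‖ = 1 := mem_sphere_zero_iff_norm.1 f.2
    have hg : ‖g.1‖ = 1 := mem_sphere_zero_iff_norm.1 g.2
    have h1 := f.1.le_opNorm x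
    have h2 := g.1.le_opNorm x
    rw [hf, one_mul] at h1
    rw [hg, one_mul] at h2
    exact (abs_sub _ _).trans (add_le_add h1 h2)

lemma ev_apply (x : X) (f : Metric.sphere (0 : StrongDual ℝ X) 1) : ev x f = f.1 x := rfl

lemma norm_ev_le (x : X) : ‖ev x‖ ≤ ‖x‖ := by
  rw [BoundedContinuousFunction.norm_le (norm_nonneg _)]
  intro f
  have hf : ‖f.1‖ = 1 := mem_sphere_zero_iff_norm.1 f.2
  have h1 := f.1.le_opNorm x
  rw [hf, one_mul] at h1
  exact h1

lemma ev_add (x y : X) : ev (x + y) = ev x + ev y := by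
  ext f
  show f.1 (x + y) = f.1 x + f.1 y
  rw [map_add]

lemma ev_zero : ev (0 : X) = 0 := by
  ext f
  show f.1 (0 : X) = 0
  rw [map_zero]

lemma ev_neg (x : X) : ev (-x) = - ev x := by
  ext f
  show f.1 (-x) = - f.1 x
  rw [map_neg]

lemma ev_units_smul (e : ℤˣ) (x : X) : ev (e • x) = e • ev x := by
  rcases Int.units_eq_one_or e with h | h
  · simp [h]
  · simp [h, Units.smul_def, ev_neg]

lemma ev_sum {ι : Type*} (s : Finset ι) (x : ι → X) : ev (∑ i ∈ s, x i) = ∑ i ∈ s, ev (x i) := by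
  classical
  induction s using Finset.induction_on with
  | empty => simp [ev_zero]
  | insert a s ha ih => rw [Finset.sum_insert ha, Finset.sum_insert ha, ev_add, ih]

lemma radSum_ev_le {ι : Type*} [Fintype ι] [DecidableEq ι] (x : ι → X) :
    radSum (fun i => ev (x i)) ≤ radSum x := by
  unfold radSum
  refine Finset.sum_le_sum fun ε _ => ?_
  have : ∑ i, ε i • ev (x i) = ev (∑ i, ε i • x i) := by
    rw [ev_sum]
    exact Finset.sum_congr rfl fun i _ => (ev_units_smul _ _).symm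
  rw [this]
  exact norm_ev_le _

/-- running maxima of the evaluations at the points of a sequence. -/
noncomputable def poly (a : ℕ → X) : ℕ → ZSpace X
  | 0 => ev (a 0)
  | k + 1 => poly a k ⊔ ev (a (k + 1))

/-- the constants in the contraction bound -/
noncomputable def cst : ℕ → ℝ
  | 0 => 1
  | k + 1 => 3 / 2 * (cst k + 1)

lemma cst_pos (k : ℕ) : 0 < cst k := by
  induction k with
  | zero => simp [cst]
  | succ k ih => simp only [cst]; linarith

lemma radSum_poly_le {ι : Type*} [Fintype ι] [DecidableEq ι] (a : ι → ℕ → X) {B : ℝ}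
    (hB : ∀ k, radSum (fun i => ev (a i k)) ≤ B) (k : ℕ) :
    radSum (fun i => poly (a i) k) ≤ cst k * B := by
  induction k with
  | zero => simpa [poly, cst] using hB 0
  | succ k ih =>
    have h1 := radSum_sup_le (fun i => poly (a i) k) (fun i => ev (a i (k + 1)))
    have h2 := hB (k + 1)
    simp only [poly, cst]
    refine h1.trans ?_
    linarith

lemma poly_le (a : ℕ → X) (f : Metric.sphere (0 : StrongDual ℝ X) 1) {c : ℝ}
    (h : ∀ k, f.1 (a k) ≤ c) (k : ℕ) : poly a k f ≤ c := by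
  induction k with
  | zero => exact h 0
  | succ k ih => exact max_le ih (h (k + 1))

lemma le_poly (a : ℕ → X) (f : Metric.sphere (0 : StrongDual ℝ X) 1) {j k : ℕ} (hjk : j ≤ k) :
    f.1 (a j) ≤ poly a k f := by
  induction k with
  | zero =>
    have : j = 0 := by omega
    rw [this]; exact le_refl _
  | succ k ih =>
    rcases Nat.lt_or_ge k j with h | h
    · have : j = k + 1 := by omega
      rw [this]; exact le_max_right _ _
    · exact (ih h).trans (le_max_left _ _)

/-- The deterministic block estimate. -/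
lemma exists_block (hX : IsBConvex X) (d : ℕ) (M : ℝ) {η : ℝ} (hη : 0 < η) :
    ∃ N : ℕ, 0 < N ∧ ∀ A : Fin N → BC X, (∀ i, ∀ a ∈ (A i).carrier, ‖a‖ ≤ M) →
      (∀ i, Module.rank ℝ (vectorSpan ℝ (A i).carrier) ≤ d) →
      radSum (fun i => (A i).R) ≤ 2 ^ N * (N * η) := by
  obtain ⟨K, hK⟩ := exists_net (X := X) d M (half_pos hη)
  set M' : ℝ := max M 1 with hM'
  have hM'pos : 0 < M' := lt_of_lt_of_le one_pos (le_max_right _ _)
  have hc := cst_pos K
  set η' : ℝ := η / (2 * cst K * M') with hη'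
  have hη'pos : 0 < η' := by positivity
  obtain ⟨N, hN, hrad⟩ := exists_small_rad hX hη'pos
  refine ⟨N, hN, ?_⟩
  intro A hAM hAd
  choose a ha hnet using fun i => hK (A i).carrier (A i).nonempty' (hAM i) (hAd i)
  -- bound for each column
  have hcol : ∀ k, radSum (fun i => ev (a i k)) ≤ 2 ^ N * (N * (M' * η')) := by
    intro k
    refine (radSum_ev_le _).trans ?_
    have h1 := hrad (fun i => M'⁻¹ • a i k) (fun i => by
      rw [norm_smul, norm_inv, Real.norm_of_nonneg hM'pos.le, inv_mul_le_iff₀ hM'pos, mul_one]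
      exact (hAM i _ (ha i k)).trans (le_max_left _ _))
    have h2 : radSum (fun i => a i k) = M' * radSum (fun i => M'⁻¹ • a i k) := by
      rw [← radSum_smul _ hM'pos.le]
      congr 1
      ext i
      rw [smul_inv_smul₀ hM'pos.ne']
    rw [h2]
    calc M' * radSum (fun i => M'⁻¹ • a i k) ≤ M' * (2 ^ N * (N * η')) :=
          mul_le_mul_of_nonneg_left h1 hM'pos.le
      _ = _ := by ring
  have hpoly := radSum_poly_le a hcol K
  -- approximation error
  have herr : ∀ i, ‖(A i).R - poly (a i) K‖ ≤ η / 2 := by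
    intro i
    rw [BoundedContinuousFunction.norm_le (by positivity)]
    intro f
    have h0 : ((A i).R - poly (a i) K) f = supp (A i).carrier f.1 - poly (a i) K f := rfl
    have hf : ‖f.1‖ = 1 := mem_sphere_zero_iff_norm.1 f.2
    have h1 : poly (a i) K f ≤ supp (A i).carrier f.1 :=
      poly_le _ _ (fun k => le_supp (A i).bounded' f.1 (ha i k)) K
    have h2 : supp (A i).carrier f.1 ≤ poly (a i) K f + η / 2 := by
      refine supp_le (A i).nonempty' _ fun x hx => ?_
      obtain ⟨k, hk, hxk⟩ := hnet i x hx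
      have h3 := le_poly (a i) f hk
      have h4 : f.1 x - f.1 (a i k) ≤ η / 2 := by
        calc f.1 x - f.1 (a i k) = f.1 (x - a i k) := (map_sub _ _ _).symm
          _ ≤ ‖f.1 (x - a i k)‖ := le_abs_self _
          _ ≤ ‖f.1‖ * ‖x - a i k‖ := f.1.le_opNorm _
          _ ≤ η / 2 := by rw [hf, one_mul]; exact hxk
      linarith
    rw [h0, Real.norm_eq_abs, abs_of_nonneg (by linarith)]
    linarith
  have hsplit : radSum (fun i => (A i).R)
      ≤ radSum (fun i => poly (a i) K) + radSum (fun i => (A i).R - poly (a i) K) := by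
    have := radSum_add_le (fun i => poly (a i) K) (fun i => (A i).R - poly (a i) K)
    simpa using this
  have herr2 := radSum_le_card (fun i => (A i).R - poly (a i) K) herr
  rw [Fintype.card_fin] at herr2
  have hfinal : cst K * (2 ^ N * (N * (M' * η'))) = 2 ^ N * (N * (η / 2)) := by
    rw [hη']; field_simp
  rw [hfinal] at hpoly
  calc radSum (fun i => (A i).R) ≤ 2 ^ N * (N * (η / 2)) + 2 ^ N * (N * (η / 2)) := by linarith
    _ = 2 ^ N * (N * η) := by ring

end block

section probability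

variable {E : Type u} [NormedAddCommGroup E] [NormedSpace ℝ E] [CompleteSpace E]
  [SecondCountableTopology E] [MeasurableSpace E] [BorelSpace E]
  {Ω : Type v} [MeasurableSpace Ω] {P : Measure Ω} [IsProbabilityMeasure P]

/-- Adding an independent centred vector increases the mean norm. -/
lemma integral_norm_le_of_indep {U V : Ω → E} (hU : Measurable U) (hV : Measurable V)
    (hUi : Integrable U P) (hVi : Integrable V P) (hind : IndepFun U V P)
    (hV0 : ∫ ω, V ω ∂P = 0) : ∫ ω, ‖U ω‖ ∂P ≤ ∫ ω, ‖U ω + V ω‖ ∂P := by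
  have hmap := (indepFun_iff_map_prod_eq_prod_map_map hU.aemeasurable hV.aemeasurable).1 hind
  have : IsProbabilityMeasure (P.map U) := Measure.isProbabilityMeasure_map hU.aemeasurable
  have : IsProbabilityMeasure (P.map V) := Measure.isProbabilityMeasure_map hV.aemeasurable
  have hVi' : Integrable (fun v : E => v) (P.map V) :=
    (integrable_map_measure (by fun_prop) hV.aemeasurable).2 hVi
  have h1 : ∫ ω, ‖U ω + V ω‖ ∂P = ∫ p : E × E, ‖p.1 + p.2‖ ∂((P.map U).prod (P.map V)) := by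
    rw [← hmap, integral_map (by fun_prop) (by fun_prop)]
  have h2 : ∫ ω, ‖U ω‖ ∂P = ∫ x, ‖x‖ ∂(P.map U) := by
    rw [integral_map (by fun_prop) (by fun_prop)]
  have h3 : ∫ v, v ∂(P.map V) = 0 := by
    rw [integral_map (by fun_prop) (by fun_prop), hV0]
  have hint : Integrable (fun p : E × E => ‖p.1 + p.2‖) ((P.map U).prod (P.map V)) := by
    rw [← hmap, integrable_map_measure (by fun_prop) (by fun_prop)]
    exact (hUi.add hVi).norm
  have hUi' : Integrable (fun x : E => ‖x‖) (P.map U) :=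
    (integrable_map_measure (by fun_prop) hU.aemeasurable).2 hUi.norm
  rw [h1, h2, integral_prod _ hint]
  refine integral_mono hUi' hint.integral_prod_left fun x => ?_
  show ‖x‖ ≤ ∫ v, ‖x + v‖ ∂(P.map V)
  calc ‖x‖ = ‖∫ v, (x + v) ∂(P.map V)‖ := by
        rw [integral_add (integrable_const _) hVi', h3]
        simp
    _ ≤ ∫ v, ‖x + v‖ ∂(P.map V) := norm_integral_le_integral_norm _

/-- Symmetrisation for a fixed sign pattern. -/
lemma integral_norm_sum_le {V : ℕ → Ω → E} (hm : ∀ i, Measurable (V i))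
    (hi : ∀ i, Integrable (V i) P) (hind : iIndepFun V P) (h0 : ∀ i, ∫ ω, V i ω ∂P = 0)
    {N : ℕ} (φ : Fin N → ℕ) (hφ : Function.Injective φ) (ε : Fin N → ℤˣ) :
    ∫ ω, ‖∑ i, V (φ i) ω‖ ∂P ≤ 2 * ∫ ω, ‖∑ i, ε i • V (φ i) ω‖ ∂P := by
  set W : Fin N → Ω → E := fun i => V (φ i) with hW
  have hWm : ∀ i, Measurable (W i) := fun i => hm _
  have hWi : ∀ i, Integrable (W i) P := fun i => hi _
  have hWind : iIndepFun W P := hind.precomp hφ
  have hW0 : ∀ i, ∫ ω, W i ω ∂P = 0 := fun i => h0 _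
  set S : Finset (Fin N) := Finset.univ.filter (fun i => ε i = 1) with hS
  set T : Finset (Fin N) := Finset.univ.filter (fun i => ¬ ε i = 1) with hT
  have hST : Disjoint S T := Finset.disjoint_filter_filter_not _ _ _
  set A : Ω → E := fun ω => ∑ i ∈ S, W i ω with hA
  set B : Ω → E := fun ω => ∑ i ∈ T, W i ω with hB
  have hAm : Measurable A := Finset.measurable_fun_sum _ fun i _ => hWm i
  have hBm : Measurable B := Finset.measurable_fun_sum _ fun i _ => hWm i
  have hAi : Integrable A P := integrable_finsetSum _ fun i _ => hWi i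
  have hBi : Integrable B P := integrable_finsetSum _ fun i _ => hWi i
  have hA0 : ∫ ω, A ω ∂P = 0 := by
    rw [integral_finsetSum _ fun i _ => hWi i]; exact Finset.sum_eq_zero fun i _ => hW0 i
  have hB0 : ∫ ω, B ω ∂P = 0 := by
    rw [integral_finsetSum _ fun i _ => hWi i]; exact Finset.sum_eq_zero fun i _ => hW0 i
  have hAB : IndepFun A B P := by
    have h := hWind.indepFun_finset S T hST hWm
    have hg : ∀ R : Finset (Fin N), Measurable (fun x : (R → E) => ∑ i, x i) := fun R =>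
      Finset.measurable_fun_sum _ fun i _ => measurable_pi_apply i
    have h2 := h.comp (hg S) (hg T)
    have e1 : ∀ R : Finset (Fin N), (fun ω => ∑ i ∈ R, W i ω)
        = (fun x : (R → E) => ∑ i, x i) ∘ (fun a (i : R) => W i a) := by
      intro R
      ext ω
      simp only [Function.comp]
      exact (Finset.sum_coe_sort R (fun i => W i ω)).symm
    rw [hA, hB, e1 S, e1 T]
    exact h2
  have hsum : ∀ ω, ∑ i, W i ω = A ω + B ω := fun ω =>
    (Finset.sum_filter_add_sum_filter_not Finset.univ (fun i => ε i = 1) (fun i => W i ω)).symm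
  have hdiff : ∀ ω, ∑ i, ε i • W i ω = A ω - B ω := by
    intro ω
    rw [← Finset.sum_filter_add_sum_filter_not Finset.univ (fun i => ε i = 1)
      (fun i => ε i • W i ω), sub_eq_add_neg]
    congr 1
    · refine Finset.sum_congr rfl fun i hi => ?_
      rw [(Finset.mem_filter.1 hi).2, one_smul]
    · rw [hB, ← Finset.sum_neg_distrib]
      refine Finset.sum_congr rfl fun i hi => ?_
      have h1 : ε i = -1 := (Int.units_eq_one_or (ε i)).resolve_left (Finset.mem_filter.1 hi).2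
      rw [h1]; simp [Units.smul_def]
  have hA1 : ∫ ω, ‖A ω‖ ∂P ≤ ∫ ω, ‖A ω - B ω‖ ∂P := by
    have := integral_norm_le_of_indep (P := P) hAm hBm.neg hAi hBi.neg hAB.neg_right (by
      simp only [Pi.neg_apply]
      rw [integral_neg, hB0, neg_zero])
    simpa [sub_eq_add_neg] using this
  have hB1 : ∫ ω, ‖B ω‖ ∂P ≤ ∫ ω, ‖A ω - B ω‖ ∂P := by
    have := integral_norm_le_of_indep (P := P) hBm hAm.neg hBi hAi.neg hAB.symm.neg_right (by
      simp only [Pi.neg_apply]
      rw [integral_neg, hA0, neg_zero])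
    refine this.trans (le_of_eq ?_)
    congr 1
    ext ω
    rw [norm_sub_rev, sub_eq_add_neg]
    rfl
  calc ∫ ω, ‖∑ i, W i ω‖ ∂P = ∫ ω, ‖A ω + B ω‖ ∂P := by simp only [hsum]
    _ ≤ ∫ ω, (‖A ω‖ + ‖B ω‖) ∂P :=
        integral_mono (hAi.add hBi).norm (hAi.norm.add hBi.norm) fun ω => norm_add_le _ _
    _ = ∫ ω, ‖A ω‖ ∂P + ∫ ω, ‖B ω‖ ∂P := integral_add hAi.norm hBi.norm
    _ ≤ 2 * ∫ ω, ‖A ω - B ω‖ ∂P := by linarith
    _ = 2 * ∫ ω, ‖∑ i, ε i • W i ω‖ ∂P := by simp only [hdiff]

/-- Expected norm of a block. -/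
lemma integral_block_le {f : ℕ → Ω → E} (hm : ∀ i, Measurable (f i)) {M : ℝ}
    (hM : ∀ i ω, ‖f i ω‖ ≤ M) (hind : iIndepFun f P)
    {N : ℕ} (φ : Fin N → ℕ) (hφ : Function.Injective φ) {C : ℝ}
    (hrad : ∀ᵐ ω ∂P, radSum (fun i => f (φ i) ω) ≤ 2 ^ N * C) :
    ∫ ω, ‖∑ i, (f (φ i) ω - ∫ ω', f (φ i) ω' ∂P)‖ ∂P ≤ 4 * C := by
  have hfi : ∀ i, Integrable (f i) P := fun i =>
    Integrable.of_bound (hm i).aestronglyMeasurable M (ae_of_all _ (hM i))
  set V : ℕ → Ω → E := fun i ω => f i ω - ∫ ω', f i ω' ∂P with hV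
  have hVm : ∀ i, Measurable (V i) := fun i => (hm i).sub_const _
  have hVi : ∀ i, Integrable (V i) P := fun i => (hfi i).sub (integrable_const _)
  have hV0 : ∀ i, ∫ ω, V i ω ∂P = 0 := by
    intro i
    rw [hV, integral_sub (hfi i) (integrable_const _)]
    simp
  have hVind : iIndepFun V P :=
    hind.comp (fun i x => x - ∫ ω', f i ω' ∂P) (fun i => measurable_id.sub_const _)
  have key : ∀ ε : Fin N → ℤˣ, ∫ ω, ‖∑ i, V (φ i) ω‖ ∂P
      ≤ 4 * ∫ ω, ‖∑ i, ε i • f (φ i) ω‖ ∂P := by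
    intro ε
    refine (integral_norm_sum_le hVm hVi hVind hV0 φ hφ ε).trans ?_
    have hsi : Integrable (fun ω => ∑ i, ε i • f (φ i) ω) P := by
      refine integrable_finsetSum _ fun i _ => ?_
      rcases Int.units_eq_one_or (ε i) with h | h
      · simpa [h] using hfi (φ i)
      · simpa [h, Units.smul_def] using (hfi (φ i)).neg
    have e1 : ∀ ω, ∑ i, ε i • V (φ i) ω
        = (∑ i, ε i • f (φ i) ω) - ∫ ω', ∑ i, ε i • f (φ i) ω' ∂P := by
      intro ω
      rw [integral_finsetSum, ← Finset.sum_sub_distrib]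
      · refine Finset.sum_congr rfl fun i _ => ?_
        rcases Int.units_eq_one_or (ε i) with h | h
        · simp [h, hV]
        · simp only [h, Units.smul_def, hV, Units.val_neg, Units.val_one, neg_smul, one_smul]
          rw [integral_neg]; abel
      · intro i _
        rcases Int.units_eq_one_or (ε i) with h | h
        · simpa [h] using hfi (φ i)
        · simpa [h, Units.smul_def] using (hfi (φ i)).neg
    have h2 : ∫ ω, ‖∑ i, ε i • V (φ i) ω‖ ∂P ≤ 2 * ∫ ω, ‖∑ i, ε i • f (φ i) ω‖ ∂P := by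
      simp only [e1]
      set g : Ω → E := fun ω => ∑ i, ε i • f (φ i) ω with hg
      calc ∫ ω, ‖g ω - ∫ ω', g ω' ∂P‖ ∂P
          ≤ ∫ ω, (‖g ω‖ + ‖∫ ω', g ω' ∂P‖) ∂P := by
            refine integral_mono (hsi.sub (integrable_const _)).norm
              (hsi.norm.add (integrable_const _)) fun ω => norm_sub_le _ _
        _ = ∫ ω, ‖g ω‖ ∂P + ‖∫ ω', g ω' ∂P‖ := by
            rw [integral_add hsi.norm (integrable_const _)]; simp
        _ ≤ 2 * ∫ ω, ‖g ω‖ ∂P := by
            have := norm_integral_le_integral_norm (μ := P) g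
            linarith
    linarith
  have hint : ∀ ε : Fin N → ℤˣ, Integrable (fun ω => ‖∑ i, ε i • f (φ i) ω‖) P := by
    intro ε
    refine (integrable_finsetSum _ fun i _ => ?_).norm
    rcases Int.units_eq_one_or (ε i) with h | h
    · simpa [h] using hfi (φ i)
    · simpa [h, Units.smul_def] using (hfi (φ i)).neg
  have hsum : (2:ℝ) ^ N * ∫ ω, ‖∑ i, V (φ i) ω‖ ∂P ≤ 4 * (2 ^ N * C) := by
    calc (2:ℝ) ^ N * ∫ ω, ‖∑ i, V (φ i) ω‖ ∂P
        = ∑ ε : Fin N → ℤˣ, ∫ ω, ‖∑ i, V (φ i) ω‖ ∂P := by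
          rw [Finset.sum_const, Finset.card_univ, nsmul_eq_mul]; simp
      _ ≤ ∑ ε : Fin N → ℤˣ, 4 * ∫ ω, ‖∑ i, ε i • f (φ i) ω‖ ∂P :=
          Finset.sum_le_sum fun ε _ => key ε
      _ = 4 * ∫ ω, radSum (fun i => f (φ i) ω) ∂P := by
          rw [← Finset.mul_sum]
          unfold radSum
          rw [integral_finsetSum _ fun ε _ => hint ε]
      _ ≤ 4 * (2 ^ N * C) := by
          refine mul_le_mul_of_nonneg_left ?_ (by norm_num)
          have h5 : ∫ ω, radSum (fun i => f (φ i) ω) ∂P ≤ ∫ ω : Ω, (2 ^ N * C) ∂P := by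
            refine integral_mono_ae ?_ (integrable_const _) hrad
            unfold radSum
            exact integrable_finsetSum _ fun ε _ => hint ε
          simpa using h5
  have hpos : (0:ℝ) < 2 ^ N := by positivity
  have : (2:ℝ) ^ N * ∫ ω, ‖∑ i, V (φ i) ω‖ ∂P ≤ 2 ^ N * (4 * C) := by linarith
  exact (mul_le_mul_iff_right₀ hpos).1 this

end probability

section slln

variable {E : Type u} [NormedAddCommGroup E] [NormedSpace ℝ E] [CompleteSpace E]
  [SecondCountableTopology E] [MeasurableSpace E] [BorelSpace E]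
  {Ω : Type v} [MeasurableSpace Ω] {P : Measure Ω} [IsProbabilityMeasure P]

omit [NormedSpace ℝ E] [CompleteSpace E] in
/-- Sub-Gaussian control of sums of block norms. -/
lemma subgaussian_blocks {f : ℕ → Ω → E} (hm : ∀ i, Measurable (f i)) {M : ℝ}
    (hM : ∀ i ω, ‖f i ω‖ ≤ M) (hind : iIndepFun f P) (m : ℕ → E) (hmn : ∀ i, ‖m i‖ ≤ M) (N B : ℕ) :
    HasSubgaussianMGF (fun ω => ∑ b ∈ Finset.range B, (‖∑ i : Fin N, (f (b * N + i) ω - m (b * N + i))‖
      - ∫ ω', ‖∑ i : Fin N, (f (b * N + i) ω' - m (b * N + i))‖ ∂P))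
      (B * (‖N * (2 * M) - 0‖₊ / 2) ^ 2) P := by
  set Y : ℕ → Ω → ℝ := fun b ω => ‖∑ i : Fin N, (f (b * N + i) ω - m (b * N + i))‖ with hY
  have hYm : ∀ b, Measurable (Y b) := by
    intro b
    refine Measurable.norm (Finset.measurable_fun_sum _ fun i _ => (hm _).sub_const _)
  have hYb : ∀ b ω, Y b ω ∈ Set.Icc (0:ℝ) (N * (2 * M)) := by
    intro b ω
    refine ⟨norm_nonneg _, ?_⟩
    refine (norm_sum_le _ _).trans ?_
    calc ∑ i : Fin N, ‖f (b * N + i) ω - m (b * N + i)‖ ≤ ∑ i : Fin N, (2 * M) := by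
          refine Finset.sum_le_sum fun i _ => ?_
          have h1 := norm_sub_le (f (b * N + i) ω) (m (b * N + i))
          have h2 := hM (b * N + i) ω
          have h3 := hmn (b * N + i)
          linarith
      _ = N * (2 * M) := by rw [Finset.sum_const, Finset.card_univ, Fintype.card_fin, nsmul_eq_mul]
  induction B with
  | zero => simp
  | succ B ih =>
    have h1 := hasSubgaussianMGF_of_mem_Icc (μ := P) (hYm B).aemeasurable (ae_of_all _ (hYb B))
    simp only [Finset.sum_range_succ]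
    have hc : ((B + 1 : ℕ) : ℝ≥0) * (‖N * (2 * M) - 0‖₊ / 2) ^ 2
        = B * (‖N * (2 * M) - 0‖₊ / 2) ^ 2 + (‖N * (2 * M) - 0‖₊ / 2) ^ 2 := by
      push_cast; ring
    rw [hc]
    refine ih.add_of_indepFun h1 ?_
    -- independence
    set S : Finset ℕ := Finset.range (B * N) with hS
    set T : Finset ℕ := Finset.Ico (B * N) ((B + 1) * N) with hT
    have hST : Disjoint S T := by
      rw [Finset.disjoint_left]
      intro a ha hb
      rw [hS, Finset.mem_range] at ha
      rw [hT, Finset.mem_Ico] at hb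
      omega
    have hfin := hind.indepFun_finset S T hST hm
    let ext (R : Finset ℕ) (x : R → E) (i : ℕ) : E := if h : i ∈ R then x ⟨i, h⟩ else 0
    have hext : ∀ (R : Finset ℕ) (i : ℕ), Measurable (fun x : R → E => ext R x i) := by
      intro R i
      by_cases h : i ∈ R
      · simp only [ext, h, dite_true]; exact measurable_pi_apply _
      · simp only [ext, h, dite_false]; exact measurable_const
    have hext2 : ∀ (R : Finset ℕ) (i : ℕ) (ω : Ω), i ∈ R → ext R (fun j : R => f j ω) i = f i ω := by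
      intro R i ω h
      simp only [ext, h, dite_true]
    let G (x : S → E) : ℝ := ∑ b ∈ Finset.range B,
      (‖∑ i : Fin N, (ext S x (b * N + i) - m (b * N + i))‖ - ∫ ω', Y b ω' ∂P)
    let H (x : T → E) : ℝ := ‖∑ i : Fin N, (ext T x (B * N + i) - m (B * N + i))‖
      - ∫ ω', Y B ω' ∂P
    have hG : Measurable G := by
      refine Finset.measurable_fun_sum _ fun b _ => Measurable.sub_const ?_ _
      exact Measurable.norm (Finset.measurable_fun_sum _ fun i _ => (hext S _).sub_const _)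
    have hH : Measurable H := by
      refine Measurable.sub_const ?_ _
      exact Measurable.norm (Finset.measurable_fun_sum _ fun i _ => (hext T _).sub_const _)
    have hGH := hfin.comp hG hH
    have e1 : (fun ω => ∑ b ∈ Finset.range B, (Y b ω - ∫ ω', Y b ω' ∂P))
        = G ∘ (fun a (i : S) => f i a) := by
      ext ω
      simp only [Function.comp, G]
      refine Finset.sum_congr rfl fun b hb => ?_
      congr 1
      show ‖_‖ = ‖_‖
      congr 1
      refine Finset.sum_congr rfl fun i _ => ?_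
      rw [hext2 S _ ω]
      rw [hS, Finset.mem_range]
      have hb' := Finset.mem_range.1 hb
      have hi := i.2
      calc b * N + i < b * N + N := by omega
        _ = (b + 1) * N := by ring
        _ ≤ B * N := Nat.mul_le_mul_right N hb'
    have e2 : (fun ω => Y B ω - ∫ ω', Y B ω' ∂P) = H ∘ (fun a (i : T) => f i a) := by
      ext ω
      simp only [Function.comp, H]
      congr 1
      show ‖_‖ = ‖_‖
      congr 1
      refine Finset.sum_congr rfl fun i _ => ?_
      rw [hext2 T _ ω]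
      rw [hT, Finset.mem_Ico]
      have hi := i.2
      constructor
      · omega
      · calc B * N + i < B * N + N := by omega
          _ = (B + 1) * N := by ring
    rw [e1, e2]
    exact hGH

/-- For each `η`, almost surely the averages are eventually at most `6η`. -/
lemma ae_eventually_le {f : ℕ → Ω → E} (hm : ∀ i, Measurable (f i)) {M : ℝ} (hM0 : 0 < M)
    (hM : ∀ i ω, ‖f i ω‖ ≤ M) (hind : iIndepFun f P) {η : ℝ} (hη : 0 < η) {N : ℕ} (hN : 0 < N)
    (hrad : ∀ φ : Fin N → ℕ, ∀ᵐ ω ∂P, radSum (fun i => f (φ i) ω) ≤ 2 ^ N * (N * η)) :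
    ∀ᵐ ω ∂P, ∀ᶠ n : ℕ in atTop,
      ‖(n:ℝ)⁻¹ • ∑ i ∈ Finset.range n, (f i ω - ∫ ω', f i ω' ∂P)‖ ≤ 6 * η := by
  set m : ℕ → E := fun i => ∫ ω', f i ω' ∂P with hmdef
  have hmn : ∀ i, ‖m i‖ ≤ M := by
    intro i
    refine (norm_integral_le_of_norm_le_const (μ := P) (C := M) (ae_of_all _ (hM i))).trans ?_
    simp
  set Y : ℕ → Ω → ℝ := fun b ω => ‖∑ i : Fin N, (f (b * N + i) ω - m (b * N + i))‖ with hY
  have hN' : (0:ℝ) < N := by exact_mod_cast hN
  -- expectation bound
  have hEY : ∀ b, ∫ ω, Y b ω ∂P ≤ 4 * (N * η) := by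
    intro b
    have := integral_block_le hm hM hind (fun i : Fin N => b * N + (i : ℕ))
      (fun i j h => Fin.ext (by simpa using h)) (hrad _)
    exact this
  have hsub := fun B => subgaussian_blocks hm hM hind m hmn N B
  set c : ℝ≥0 := (‖N * (2 * M) - 0‖₊ / 2) ^ 2 with hc
  have hcpos : (0:ℝ) < c := by
    have h1 : (c : ℝ) = (‖(N:ℝ) * (2 * M) - 0‖ / 2) ^ 2 := by rw [hc]; push_cast; rfl
    rw [h1, sub_zero, Real.norm_of_nonneg (by positivity)]
    positivity
  -- tail events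
  set s : ℕ → Set Ω := fun B =>
    {ω | (B:ℝ) * (N * η) ≤ ∑ b ∈ Finset.range B, (Y b ω - ∫ ω', Y b ω' ∂P)} with hs
  set q : ℝ := Real.exp (-((N * η) ^ 2 / (2 * c))) with hq
  have hq1 : q < 1 := by
    rw [hq, Real.exp_lt_one_iff]
    have : 0 < (N * η) ^ 2 / (2 * c) := by positivity
    linarith
  have hq0 : 0 ≤ q := (Real.exp_pos _).le
  have htail : ∀ B, P.real (s B) ≤ q ^ B := by
    intro B
    have h1 := (hsub B).measure_ge_le (ε := (B:ℝ) * (N * η)) (by positivity)
    refine h1.trans (le_of_eq ?_)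
    rw [hq, ← Real.exp_nat_mul]
    congr 1
    rcases Nat.eq_zero_or_pos B with h | h
    · simp [h]
    · have hB : (0:ℝ) < B := by exact_mod_cast h
      push_cast
      field_simp
  have hsummable : ∑' B, P (s B) ≠ ∞ := by
    have h1 : ∀ B, P (s B) ≤ ENNReal.ofReal (q ^ B) := by
      intro B
      rw [← ofReal_measureReal (μ := P) (s := s B)]
      exact ENNReal.ofReal_le_ofReal (htail B)
    have h2 : Summable (fun B : ℕ => q ^ B) := summable_geometric_of_lt_one hq0 hq1
    have h3 : ∑' B : ℕ, ENNReal.ofReal (q ^ B) ≠ ∞ := h2.tsum_ofReal_ne_top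
    exact ne_top_of_le_ne_top h3 (ENNReal.tsum_le_tsum h1)
  filter_upwards [ae_eventually_notMem hsummable] with ω hω
  -- block sums
  have hev : ∀ᶠ B : ℕ in atTop, ∑ b ∈ Finset.range B, Y b ω ≤ 5 * (N * η) * B := by
    filter_upwards [hω] with B hB
    have hB' : ∑ b ∈ Finset.range B, (Y b ω - ∫ ω', Y b ω' ∂P) < (B:ℝ) * (N * η) := not_le.1 hB
    rw [Finset.sum_sub_distrib] at hB'
    have h1 : ∑ b ∈ Finset.range B, ∫ ω', Y b ω' ∂P ≤ B * (4 * (N * η)) := by
      refine (Finset.sum_le_sum fun b _ => hEY b).trans (le_of_eq ?_)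
      rw [Finset.sum_const, Finset.card_range, nsmul_eq_mul]
    linarith
  have hdiv : Tendsto (fun n : ℕ => n / N) atTop atTop := Nat.tendsto_div_const_atTop hN.ne'
  have hev2 := hdiv.eventually hev
  have hbig : ∀ᶠ n : ℕ in atTop, 2 * M * N ≤ η * n := by
    have : Tendsto (fun n : ℕ => η * (n:ℝ)) atTop atTop :=
      Tendsto.const_mul_atTop hη tendsto_natCast_atTop_atTop
    exact this.eventually_ge_atTop _
  filter_upwards [hev2, hbig, eventually_gt_atTop 0] with n h1 h2 h3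
  have hn : (0:ℝ) < n := by exact_mod_cast h3
  -- decomposition
  have hblock : ∀ B : ℕ, ‖∑ i ∈ Finset.range (B * N), (f i ω - m i)‖
      ≤ ∑ b ∈ Finset.range B, Y b ω := by
    intro B
    induction B with
    | zero => simp
    | succ B ih =>
      have e1 : (B + 1) * N = B * N + N := by ring
      rw [e1, Finset.sum_range_add, Finset.sum_range_succ]
      refine (norm_add_le _ _).trans (add_le_add ih ?_)
      rw [hY, Finset.sum_range]
  have hV : ∀ i, ‖f i ω - m i‖ ≤ 2 * M := by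
    intro i
    have h4 := norm_sub_le (f i ω) (m i)
    have h5 := hM i ω
    have h6 := hmn i
    linarith
  have hdecomp : ‖∑ i ∈ Finset.range n, (f i ω - m i)‖
      ≤ ∑ b ∈ Finset.range (n / N), Y b ω + N * (2 * M) := by
    have e1 : n = n / N * N + n % N := (Nat.div_add_mod' n N).symm
    conv_lhs => rw [e1]
    rw [Finset.sum_range_add]
    refine (norm_add_le _ _).trans (add_le_add (hblock _) ?_)
    refine (norm_sum_le _ _).trans ?_
    calc ∑ i ∈ Finset.range (n % N), ‖f (n / N * N + i) ω - m (n / N * N + i)‖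
        ≤ ∑ i ∈ Finset.range (n % N), (2 * M) := Finset.sum_le_sum fun i _ => hV _
      _ = (n % N : ℕ) * (2 * M) := by rw [Finset.sum_const, Finset.card_range, nsmul_eq_mul]
      _ ≤ N * (2 * M) := by
          have : ((n % N : ℕ) : ℝ) ≤ N := by exact_mod_cast (Nat.mod_lt n hN).le
          nlinarith
  have hdivle : ((n / N : ℕ) : ℝ) * N ≤ n := by exact_mod_cast Nat.div_mul_le_self n N
  rw [norm_smul, norm_inv, Real.norm_of_nonneg hn.le, inv_mul_le_iff₀ hn]
  calc ‖∑ i ∈ Finset.range n, (f i ω - m i)‖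
      ≤ ∑ b ∈ Finset.range (n / N), Y b ω + N * (2 * M) := hdecomp
    _ ≤ 5 * (N * η) * (n / N : ℕ) + N * (2 * M) := by linarith
    _ = 5 * η * (((n / N : ℕ) : ℝ) * N) + 2 * M * N := by ring
    _ ≤ 5 * η * n + η * n := by
        refine add_le_add ?_ h2
        exact mul_le_mul_of_nonneg_left hdivle (by positivity)
    _ = n * (6 * η) := by ring

/-- The core strong law in a separable Banach space. -/
theorem slln_core {f : ℕ → Ω → E} (hm : ∀ i, Measurable (f i)) {M : ℝ} (hM0 : 0 < M)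
    (hM : ∀ i ω, ‖f i ω‖ ≤ M) (hind : iIndepFun f P)
    (hrad : ∀ η : ℝ, 0 < η → ∃ N : ℕ, 0 < N ∧ ∀ φ : Fin N → ℕ,
      ∀ᵐ ω ∂P, radSum (fun i => f (φ i) ω) ≤ 2 ^ N * (N * η)) :
    ∀ᵐ ω ∂P, Tendsto
      (fun n : ℕ => ‖(n:ℝ)⁻¹ • ∑ i ∈ Finset.range n, (f i ω - ∫ ω', f i ω' ∂P)‖) atTop (𝓝 0) := by
  have h1 : ∀ j : ℕ, ∀ᵐ ω ∂P, ∀ᶠ n : ℕ in atTop,
      ‖(n:ℝ)⁻¹ • ∑ i ∈ Finset.range n, (f i ω - ∫ ω', f i ω' ∂P)‖ ≤ 6 * (1 / ((j:ℝ) + 1)) := by
    intro j
    obtain ⟨N, hN, h⟩ := hrad (1 / ((j:ℝ) + 1)) (by positivity)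
    exact ae_eventually_le hm hM0 hM hind (by positivity) hN h
  filter_upwards [ae_all_iff.2 h1] with ω hω
  rw [Metric.tendsto_atTop]
  intro e he
  obtain ⟨j, hj⟩ := exists_nat_one_div_lt (show (0:ℝ) < e / 6 by positivity)
  obtain ⟨n₀, hn₀⟩ := eventually_atTop.1 (hω j)
  refine ⟨n₀, fun n hn => ?_⟩
  rw [Real.dist_eq, sub_zero, abs_of_nonneg (norm_nonneg _)]
  have := hn₀ n hn
  linarith

end slln

section general

variable {F : Type u} [NormedAddCommGroup F] [NormedSpace ℝ F] [CompleteSpace F]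
  [MeasurableSpace F] [BorelSpace F]
  {Ω : Type v} [MeasurableSpace Ω] {P : Measure Ω} [IsProbabilityMeasure P]

omit [CompleteSpace F] [MeasurableSpace F] [BorelSpace F] in
lemma coe_radSum {ι : Type*} [Fintype ι] [DecidableEq ι] (F₀ : Submodule ℝ F) (g : ι → F₀) :
    radSum g = radSum (fun i => (g i : F)) := by
  unfold radSum
  refine Finset.sum_congr rfl fun ε _ => ?_
  have h2 : ((∑ i, ε i • g i : F₀) : F) = ∑ i, ε i • (g i : F) := by
    rw [← Submodule.subtype_apply, map_sum]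
    refine Finset.sum_congr rfl fun i _ => ?_
    rcases Int.units_eq_one_or (ε i) with h | h
    · rw [h, one_smul, one_smul]; rfl
    · rw [h]
      simp only [Units.smul_def, Units.val_neg, Units.val_one, neg_smul, one_smul, map_neg]
      rfl
  rw [← h2]
  rfl

/-- The strong law in a general Banach space, under the Rademacher condition. -/
theorem slln_general {f : ℕ → Ω → F} (hmeas : ∀ i, Measurable (f i))
    (hint : ∀ i, Integrable (f i) P) {M : ℝ} (hM0 : 0 < M)
    (hfM : ∀ i ω, ‖f i ω‖ ≤ M) (hindep : iIndepFun f P)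
    (hrad : ∀ η : ℝ, 0 < η → ∃ N : ℕ, 0 < N ∧ ∀ φ : Fin N → ℕ,
      ∀ ω, radSum (fun i => f (φ i) ω) ≤ 2 ^ N * (N * η)) :
    ∀ᵐ ω ∂P, Tendsto
      (fun n : ℕ => ‖(n:ℝ)⁻¹ • ∑ i ∈ Finset.range n, (f i ω - ∫ ω', f i ω' ∂P)‖) atTop (𝓝 0) := by
  -- separable closed subspace
  choose t ht1 ht2 using fun n => (hint n).aestronglyMeasurable.isSeparable_ae_range
  have htsep : TopologicalSpace.IsSeparable (⋃ n, t n) := TopologicalSpace.IsSeparable.iUnion ht1
  set F₀ : Submodule ℝ F := (Submodule.span ℝ (⋃ n, t n)).topologicalClosure with hF₀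
  have hZsep : TopologicalSpace.IsSeparable (F₀ : Set F) := by
    have h1 := (htsep.span (R := ℝ)).closure
    simpa [hF₀, Submodule.topologicalClosure_coe] using h1
  have hZcl : IsClosed (F₀ : Set F) := Submodule.isClosed_topologicalClosure _
  have : CompleteSpace F₀ := hZcl.completeSpace_coe
  have : TopologicalSpace.SeparableSpace F₀ := hZsep.separableSpace
  have : SecondCountableTopology F₀ := UniformSpace.secondCountable_of_separable F₀
  have hmem : ∀ n, ∀ᵐ ω ∂P, f n ω ∈ F₀ := by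
    intro n
    filter_upwards [ht2 n] with ω hω
    exact Submodule.le_topologicalClosure _ (Submodule.subset_span (Set.mem_iUnion.2 ⟨n, hω⟩))
  classical
  set π : F → F₀ := fun z => if h : z ∈ F₀ then ⟨z, h⟩ else 0 with hπ
  have hπm : Measurable π := by
    have h1 : MeasurableEmbedding (Subtype.val : F₀ → F) :=
      MeasurableEmbedding.subtype_coe hZcl.measurableSet
    rw [← h1.measurable_comp_iff]
    have h2 : (Subtype.val : F₀ → F) ∘ π = fun z => if z ∈ F₀ then z else 0 := by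
      ext1 z
      by_cases h : z ∈ F₀
      · simp [hπ, h]
      · simp [hπ, h]
    rw [h2]
    exact Measurable.ite hZcl.measurableSet measurable_id measurable_const
  have hπmem : ∀ z, z ∈ F₀ → (π z : F) = z := by
    intro z h; simp [hπ, h]
  have hπn : ∀ z, ‖π z‖ ≤ ‖z‖ := by
    intro z
    by_cases h : z ∈ F₀
    · simp only [hπ, h, dite_true]; exact le_refl _
    · simp only [hπ, h, dite_false, norm_zero]; exact norm_nonneg _
  set g : ℕ → Ω → F₀ := fun n ω => π (f n ω) with hg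
  have hgm : ∀ n, Measurable (g n) := fun n => hπm.comp (hmeas n)
  have hgM : ∀ n ω, ‖g n ω‖ ≤ M := fun n ω => (hπn _).trans (hfM n ω)
  have hgind : iIndepFun g P := hindep.comp (fun _ => π) (fun _ => hπm)
  have hgf : ∀ᵐ ω ∂P, ∀ n, (g n ω : F) = f n ω := by
    filter_upwards [ae_all_iff.2 hmem] with ω hω n
    exact hπmem _ (hω n)
  have hgint : ∀ n, ((∫ ω, g n ω ∂P : F₀) : F) = ∫ ω, f n ω ∂P := by
    intro n
    have hi : Integrable (g n) P :=
      Integrable.of_bound (hgm n).aestronglyMeasurable M (ae_of_all _ (hgM n))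
    have h1 := F₀.subtypeL.integral_comp_comm hi
    have h2 : ((∫ ω, g n ω ∂P : F₀) : F) = F₀.subtypeL (∫ ω, g n ω ∂P) := rfl
    rw [h2, ← h1]
    refine integral_congr_ae ?_
    filter_upwards [hgf] with ω hω
    exact hω n
  -- the Rademacher condition
  have hrad' : ∀ η : ℝ, 0 < η → ∃ N : ℕ, 0 < N ∧ ∀ φ : Fin N → ℕ,
      ∀ᵐ ω ∂P, radSum (fun i => g (φ i) ω) ≤ 2 ^ N * (N * η) := by
    intro η hη
    obtain ⟨N, hN, hb⟩ := hrad η hη
    refine ⟨N, hN, fun φ => ?_⟩
    filter_upwards [hgf] with ω hω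
    rw [coe_radSum]
    simp only [hω]
    exact hb φ ω
  have hfinal := slln_core hgm hM0 hgM hgind hrad'
  filter_upwards [hfinal, hgf] with ω hω1 hω2
  refine hω1.congr fun n => ?_
  have h2 : (((n:ℝ)⁻¹ • ∑ i ∈ Finset.range n, (g i ω - ∫ ω', g i ω' ∂P) : F₀) : F)
      = (n:ℝ)⁻¹ • ∑ i ∈ Finset.range n, (f i ω - ∫ ω', f i ω' ∂P) := by
    rw [← Submodule.subtype_apply, map_smul, map_sum]
    congr 1
    refine Finset.sum_congr rfl fun i _ => ?_
    rw [map_sub]
    have h3 : F₀.subtype (g i ω) = f i ω := hω2 i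
    have h4 : F₀.subtype (∫ ω', g i ω' ∂P) = ∫ ω', f i ω' ∂P := hgint i
    rw [h3, h4]
  rw [← h2]
  rfl

end general

section main

variable {X : Type u} [NormedAddCommGroup X] [NormedSpace ℝ X]

/-- Hausdorff distance of the averages is controlled by the norm in `Z`. -/
lemma hausdorffDist_averages_le (A B : ℕ → BC X) (n : ℕ) :
    Metric.hausdorffDist ((n:ℝ)⁻¹ • ∑ i ∈ Finset.range n, (A i).carrier)
      ((n:ℝ)⁻¹ • ∑ i ∈ Finset.range n, (B i).carrier)
      ≤ ‖(n:ℝ)⁻¹ • ∑ i ∈ Finset.range n, ((A i).R - (B i).R)‖ := by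
  obtain ⟨a1, a2, a3, a4⟩ := sum_props (Finset.range n) (fun i => (A i).carrier)
    (fun i => (A i).nonempty') (fun i => (A i).bounded') (fun i => (A i).convex')
  obtain ⟨b1, b2, b3, b4⟩ := sum_props (Finset.range n) (fun i => (B i).carrier)
    (fun i => (B i).nonempty') (fun i => (B i).bounded') (fun i => (B i).convex')
  have hn : (0:ℝ) ≤ (n:ℝ)⁻¹ := by positivity
  refine hausdorffDist_le_of_supp a1.smul_set (a3.smul _) (a2.smul₀ _) b1.smul_set (b3.smul _)
    (b2.smul₀ _) (norm_nonneg _) ?_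
  intro f hf
  rw [supp_smul a1 a2 hn, supp_smul b1 b2 hn, a4, b4]
  have hmem : f ∈ Metric.sphere (0 : StrongDual ℝ X) 1 := mem_sphere_zero_iff_norm.2 hf
  obtain ⟨f', hf'⟩ : ∃ f' : Metric.sphere (0 : StrongDual ℝ X) 1, f'.1 = f := ⟨⟨f, hmem⟩, rfl⟩
  have h0 : ∀ s : Finset ℕ, (∑ i ∈ s, ((A i).R - (B i).R)) f'
      = ∑ i ∈ s, supp (A i).carrier f - ∑ i ∈ s, supp (B i).carrier f := by
    intro s
    induction s using Finset.induction_on with
    | empty => simp
    | insert a s ha ih =>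
      rw [Finset.sum_insert ha, Finset.sum_insert ha, Finset.sum_insert ha]
      have h1 : ((A a).R - (B a).R + ∑ i ∈ s, ((A i).R - (B i).R)) f'
          = (A a).R f' - (B a).R f' + (∑ i ∈ s, ((A i).R - (B i).R)) f' := rfl
      rw [h1, ih, BC.R_apply, BC.R_apply, hf']
      ring
  have h1 : ((n:ℝ)⁻¹ • ∑ i ∈ Finset.range n, ((A i).R - (B i).R)) f'
      = (n:ℝ)⁻¹ * ∑ i ∈ Finset.range n, supp (A i).carrier f
        - (n:ℝ)⁻¹ * ∑ i ∈ Finset.range n, supp (B i).carrier f := by
    have h2 : ((n:ℝ)⁻¹ • ∑ i ∈ Finset.range n, ((A i).R - (B i).R)) f'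
        = (n:ℝ)⁻¹ * (∑ i ∈ Finset.range n, ((A i).R - (B i).R)) f' := rfl
    rw [h2, h0, mul_sub]
  rw [← h1]
  have h3 := ((n:ℝ)⁻¹ • ∑ i ∈ Finset.range n, ((A i).R - (B i).R)).norm_coe_le_norm f'
  rwa [Real.norm_eq_abs] at h3

/-- In a B-convex Banach space the full form of the strong law of large numbers holds for the class
of random sets all of whose values have dimension at most `d`. -/
theorem main_theorem (X : Type u) [NormedAddCommGroup X] [NormedSpace ℝ X] [CompleteSpace X]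
    (hX : IsBConvex X) (d : ℕ) : FullSLLN.{u, v} {A : BC X | A.dim ≤ d} := by
  intro Ω _ P _ _ _ Ψ U hdim hmeas hint hexp hindep ⟨M₀, hM₀⟩
  set M : ℝ := max M₀ 1 with hMdef
  have hM0 : 0 < M := lt_of_lt_of_le one_pos (le_max_right _ _)
  have hM : ∀ n ω, ∀ a ∈ (Ψ n ω).carrier, ‖a‖ ≤ M := fun n ω a ha =>
    (hM₀ n ω a ha).trans (le_max_left _ _)
  have hfM : ∀ n ω, ‖(Ψ n ω).R‖ ≤ M := fun n ω => (Ψ n ω).norm_R_le (hM n ω)
  have hrad : ∀ η : ℝ, 0 < η → ∃ N : ℕ, 0 < N ∧ ∀ φ : Fin N → ℕ,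
      ∀ ω, radSum (fun i => (Ψ (φ i) ω).R) ≤ 2 ^ N * (N * η) := by
    intro η hη
    obtain ⟨N, hN, hb⟩ := exists_block hX d M hη
    refine ⟨N, hN, fun φ ω => ?_⟩
    refine hb (fun i => Ψ (φ i) ω) (fun i => hM _ _) (fun i => ?_)
    have h1 : (Ψ (φ i) ω).dim ≤ d := hdim (φ i) ω
    rw [← direction_affineSpan]
    exact h1
  have hfinal := slln_general hmeas hint hM0 hfM hindep hrad
  filter_upwards [hfinal] with ω hω
  refine squeeze_zero (fun n => Metric.hausdorffDist_nonneg)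
    (fun n => hausdorffDist_averages_le (fun i => Ψ i ω) U n) ?_
  simpa only [hexp] using hω

end main

end Pool.Agent.Lib.Pd665d0
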